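import Mathlib

/-!
# Counting lazy digit strings
-/

namespace Pool.Agent.Lib.MP_6b55e5_an

open Finset

variable {n B : ℕ}

/-- Swapping lemma: two sets of strings depending on disjoint sets of coordinates are
independent for the uniform distribution. -/
lemma card_inter_of_split (X Y : Finset (Fin n → Fin B)) (S : Fin n → Prop) [DecidablePred S]
    (hX : ∀ f g : Fin n → Fin B, (∀ i, S i → f i = g i) → f ∈ X → g ∈ X)
    (hY : ∀ f g : Fin n → Fin B, (∀ i, ¬ S i → f i = g i) → f ∈ Y → g ∈ Y) :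
    (X ∩ Y).card * (B ^ n) = X.card * Y.card := by
  classical
  have hcard : (univ : Finset (Fin n → Fin B)).card = B ^ n := by
    simp [Finset.card_univ]
  rw [← hcard, ← card_product, ← card_product]
  let Φ : (Fin n → Fin B) × (Fin n → Fin B) → (Fin n → Fin B) × (Fin n → Fin B) :=
    fun z => (fun i => if S i then z.1 i else z.2 i, fun i => if S i then z.2 i else z.1 i)
  have hΦ : ∀ z, Φ (Φ z) = z := by
    intro z
    ext i <;> simp only [Φ] <;> by_cases h : S i <;> simp [h]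
  apply card_nbij' Φ Φ
  · intro z hz
    simp only [coe_product, Set.mem_prod, mem_coe, mem_inter, mem_univ, and_true] at hz ⊢
    exact ⟨hX z.1 (Φ z).1 (fun i hi => by simp [Φ, hi]) hz.1,
      hY z.1 (Φ z).2 (fun i hi => by simp [Φ, hi]) hz.2⟩
  · intro z hz
    simp only [coe_product, Set.mem_prod, mem_coe, mem_inter, mem_univ, and_true] at hz ⊢
    exact ⟨hX z.1 (Φ z).1 (fun i hi => by simp [Φ, hi]) hz.1,
      hY z.2 (Φ z).1 (fun i hi => by simp [Φ, hi]) hz.2⟩
  · intro z _; exact hΦ z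
  · intro z _; exact hΦ z

/-- Strings that satisfy the laziness constraints relative to `ν` at the positions `μ ≤ p < ν`. -/
def A (n B μ ν : ℕ) : Finset (Fin n → Fin B) :=
  univ.filter (fun f => ∀ p : Fin n, μ ≤ (p : ℕ) → (p : ℕ) < ν →
    B < (ν + 1 - p) * ((f p : ℕ) + 1))

lemma mem_A {μ ν : ℕ} {f : Fin n → Fin B} : f ∈ A n B μ ν ↔ ∀ p : Fin n, μ ≤ (p : ℕ) →
    (p : ℕ) < ν → B < (ν + 1 - p) * ((f p : ℕ) + 1) := by
  simp [A]

lemma card_allowed (l : ℕ) (hl : 0 < l) (hdvd : l ∣ B) :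
    (univ.filter (fun v : Fin B => B < l * ((v : ℕ) + 1))).card = B - B / l := by
  obtain ⟨c, rfl⟩ := hdvd
  rw [Nat.mul_div_cancel_left c hl]
  have : (univ.filter (fun v : Fin (l * c) => l * c < l * ((v : ℕ) + 1)))
      = univ.filter (fun v : Fin (l * c) => c ≤ (v : ℕ)) := by
    apply filter_congr
    intro v _
    rw [Nat.mul_lt_mul_left hl]; omega
  rw [this]
  have h2 : (univ.filter (fun v : Fin (l * c) => c ≤ (v : ℕ))).map Fin.valEmbedding
      = Ico c (l * c) := by
    ext v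
    simp only [mem_map, mem_filter, mem_univ, true_and, Fin.valEmbedding_apply, mem_Ico]
    constructor
    · rintro ⟨w, hw, rfl⟩; exact ⟨hw, w.2⟩
    · rintro ⟨h1, h2⟩; exact ⟨⟨v, h2⟩, h1, rfl⟩
  rw [← card_map Fin.valEmbedding, h2, Nat.card_Ico]

/-- exact density of `A n B μ ν`. -/
lemma card_A (μ i : ℕ) (hν : μ + i ≤ n) (hdvd : ∀ l, 0 < l → l ≤ n + 1 → l ∣ B) (hB : 0 < B) :
    ((A n B μ (μ + i)).card : ℝ) = (B : ℝ) ^ n / (i + 1) := by
  classical
  have h1 : A n B μ (μ + i) = Fintype.piFinset (fun p : Fin n =>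
      univ.filter (fun v : Fin B => μ ≤ (p : ℕ) → (p : ℕ) < μ + i →
        B < (μ + i + 1 - p) * ((v : ℕ) + 1))) := by
    ext f; simp [mem_A, Fintype.mem_piFinset]
  rw [h1, Fintype.card_piFinset]
  have hBr : (0 : ℝ) < B := by exact_mod_cast hB
  have h2 : ∀ p : Fin n, ((univ.filter (fun v : Fin B => μ ≤ (p : ℕ) → (p : ℕ) < μ + i →
        B < (μ + i + 1 - p) * ((v : ℕ) + 1))).card : ℝ)
        = (fun p : ℕ => if μ ≤ p ∧ p < μ + i then (B : ℝ) * (1 - 1 / ((μ + i + 1 - p : ℕ) : ℝ))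
            else (B : ℝ)) p := by
    intro p
    by_cases hp : μ ≤ (p : ℕ) ∧ (p : ℕ) < μ + i
    · have hl : 0 < μ + i + 1 - (p : ℕ) := by omega
      have hl2 : μ + i + 1 - (p : ℕ) ≤ n + 1 := by omega
      have := card_allowed (B := B) _ hl (hdvd _ hl hl2)
      simp only [hp.1, hp.2, forall_true_left, and_self, if_true]
      rw [this, Nat.cast_sub (Nat.div_le_self _ _), Nat.cast_div (hdvd _ hl hl2)
        (by exact_mod_cast hl.ne')]
      field_simp
    · have : (univ.filter (fun v : Fin B => μ ≤ (p : ℕ) → (p : ℕ) < μ + i →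
        B < (μ + i + 1 - p) * ((v : ℕ) + 1))) = univ := by
        apply filter_true_of_mem
        intro v _ h3 h4
        exact absurd ⟨h3, h4⟩ hp
      rw [this]
      simp [hp]
  push_cast
  rw [prod_congr rfl (fun p _ => h2 p), Fin.prod_univ_eq_prod_range
    (fun p : ℕ => if μ ≤ p ∧ p < μ + i then (B : ℝ) * (1 - 1 / ((μ + i + 1 - p : ℕ) : ℝ))
            else (B : ℝ)) n]
  have h3 : ∀ p ∈ range n, (if μ ≤ p ∧ p < μ + i then (B : ℝ) * (1 - 1 / ((μ + i + 1 - p : ℕ) : ℝ))
            else (B : ℝ)) = B * (if μ ≤ p ∧ p < μ + i then (1 - 1 / ((μ + i + 1 - p : ℕ) : ℝ))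
            else 1) := by
    intro p _; split_ifs <;> simp
  rw [prod_congr rfl h3, prod_mul_distrib, prod_const, card_range, ← prod_filter]
  have h4 : (range n).filter (fun p => μ ≤ p ∧ p < μ + i) = Ico μ (μ + i) := by
    ext p; simp; omega
  rw [h4, div_eq_mul_inv]
  congr 1
  -- telescoping product
  clear h1 h2 h3 h4 hν
  induction i generalizing μ with
  | zero => simp
  | succ i ih =>
    rw [prod_eq_prod_Ico_succ_bot (by omega)]
    have := ih (μ + 1)
    have e : μ + 1 + i = μ + (i + 1) := by ring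
    rw [e] at this
    rw [this]
    have e2 : μ + (i + 1) + 1 - μ = i + 2 := by omega
    rw [e2]
    push_cast
    field_simp
    ring

end Pool.Agent.Lib.MP_6b55e5_an
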