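import Mathlib
import Pool.Agent.Lib.MP_6b55e5_an.Count

/-!
# The density of lazy strings (first passage decomposition)
-/

namespace Pool.Agent.Lib.MP_6b55e5_an

open Finset

variable {n B : ℕ}

/-- first passage sets -/
def E (n B h μ : ℕ) : Finset (Fin n → Fin B) :=
  (A n B 0 μ).filter (fun f => ∀ ν, h ≤ ν → ν < μ → f ∉ A n B 0 ν)

lemma mem_E {h μ : ℕ} {f : Fin n → Fin B} :
    f ∈ E n B h μ ↔ f ∈ A n B 0 μ ∧ ∀ ν, h ≤ ν → ν < μ → f ∉ A n B 0 ν := by
  classical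
  simp only [E, mem_filter]

lemma A_dep {μ : ℕ} {f g : Fin n → Fin B} (hfg : ∀ i : Fin n, (i : ℕ) < μ → f i = g i)
    (hf : f ∈ A n B 0 μ) : g ∈ A n B 0 μ := by
  rw [mem_A] at hf ⊢
  intro p h0 hp
  rw [← hfg p hp]
  exact hf p h0 hp

lemma E_dep {h μ : ℕ} {f g : Fin n → Fin B} (hfg : ∀ i : Fin n, (i : ℕ) < μ → f i = g i)
    (hf : f ∈ E n B h μ) : g ∈ E n B h μ := by
  rw [mem_E] at hf ⊢
  refine ⟨A_dep hfg hf.1, fun ν h1 h2 h3 => hf.2 ν h1 h2 ?_⟩
  exact A_dep (fun i hi => (hfg i (by omega)).symm) h3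

lemma card_E_inter_A (h μ ν : ℕ) :
    (E n B h μ ∩ A n B μ ν).card * B ^ n = (E n B h μ).card * (A n B μ ν).card := by
  apply card_inter_of_split _ _ (fun i : Fin n => (i : ℕ) < μ)
  · intro f g hfg hf
    exact E_dep hfg hf
  · intro f g hfg hf
    rw [mem_A] at hf ⊢
    intro p h0 hp
    rw [← hfg p (by omega)]
    exact hf p h0 hp

lemma inter_subset {h μ ν : ℕ} (hμν : μ ≤ ν) : E n B h μ ∩ A n B μ ν ⊆ A n B 0 ν := by
  intro f hf
  rw [mem_inter, mem_E] at hf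
  obtain ⟨⟨h1, -⟩, h2⟩ := hf
  rw [mem_A] at h1 h2 ⊢
  intro p _ hp
  by_cases hpμ : (p : ℕ) < μ
  · calc B < (μ + 1 - p) * ((f p : ℕ) + 1) := h1 p (Nat.zero_le _) hpμ
      _ ≤ (ν + 1 - p) * ((f p : ℕ) + 1) := by gcongr
  · exact h2 p (by omega) hp

lemma E_disjoint {h μ μ' : ℕ} (hμ : h ≤ μ) (hμ' : h ≤ μ') (hne : μ ≠ μ') :
    Disjoint (E n B h μ) (E n B h μ') := by
  rw [disjoint_left]
  intro f hf hf'
  rw [mem_E] at hf hf'
  rcases lt_or_gt_of_ne hne with hlt | hlt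
  · exact hf'.2 μ hμ hlt hf.1
  · exact hf.2 μ' hμ' hlt hf'.1

/-- the union of all sets of lazy strings -/
def G1 (n B h : ℕ) : Finset (Fin n → Fin B) :=
  (Icc h (2 * h)).biUnion (fun μ => A n B 0 μ)

lemma mem_G1 {h : ℕ} {f : Fin n → Fin B} :
    f ∈ G1 n B h ↔ ∃ μ, h ≤ μ ∧ μ ≤ 2 * h ∧ f ∈ A n B 0 μ := by
  simp only [G1, mem_biUnion, mem_Icc, and_assoc]

lemma G1_subset (h : ℕ) : G1 n B h ⊆ (Icc h (2 * h)).biUnion (fun μ => E n B h μ) := by
  classical
  intro f hf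
  rw [mem_G1] at hf
  have hex : ∃ μ, h ≤ μ ∧ μ ≤ 2 * h ∧ f ∈ A n B 0 μ := hf
  rw [mem_biUnion]
  refine ⟨Nat.find hex, ?_, ?_⟩
  · have := Nat.find_spec hex
    rw [mem_Icc]; exact ⟨this.1, this.2.1⟩
  · rw [mem_E]
    refine ⟨(Nat.find_spec hex).2.2, ?_⟩
    intro ν h1 h2 h3
    have h4 := Nat.find_min hex h2
    apply h4
    refine ⟨h1, ?_, h3⟩
    have := (Nat.find_spec hex).2.1
    omega

lemma harmonic_bound (h : ℕ) (hn : n = 3 * h)
    (hdvd : ∀ l, 0 < l → l ≤ n + 1 → l ∣ B) (hB : 0 < B) :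
    (∑ i ∈ range (h + 1), (1 : ℝ) / (i + 1)) * ((G1 n B h).card : ℝ) ≤ 2 * (B : ℝ) ^ n := by
  classical
  have hBr : (0 : ℝ) < (B : ℝ) := by exact_mod_cast hB
  have hBn : (0 : ℝ) < (B : ℝ) ^ n := by positivity
  -- the number of strings in G1
  have h1 : ((G1 n B h).card : ℝ) ≤ ∑ μ ∈ Icc h (2 * h), ((E n B h μ).card : ℝ) := by
    have : (G1 n B h).card ≤ ∑ μ ∈ Icc h (2 * h), (E n B h μ).card :=
      (card_le_card (G1_subset h)).trans card_biUnion_le
    exact_mod_cast this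
  -- independence
  have h2 : ∀ μ ∈ Icc h (2 * h), ∀ i ∈ range (h + 1),
      ((E n B h μ ∩ A n B μ (μ + i)).card : ℝ) = ((E n B h μ).card : ℝ) * (1 / ((i : ℝ) + 1)) := by
    intro μ hμ i hi
    rw [mem_Icc] at hμ
    rw [mem_range] at hi
    have h3 := card_E_inter_A (n := n) (B := B) h μ (μ + i)
    have h4 : ((E n B h μ ∩ A n B μ (μ + i)).card : ℝ) * (B : ℝ) ^ n
        = ((E n B h μ).card : ℝ) * ((A n B μ (μ + i)).card : ℝ) := by exact_mod_cast h3
    rw [card_A μ i (by omega) hdvd hB] at h4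
    have h5 : ((E n B h μ ∩ A n B μ (μ + i)).card : ℝ) * (B : ℝ) ^ n
        = (((E n B h μ).card : ℝ) * (1 / ((i : ℝ) + 1))) * (B : ℝ) ^ n := by
      rw [h4]; ring
    exact mul_right_cancel₀ hBn.ne' h5
  -- double sum
  have h3 : (∑ i ∈ range (h + 1), (1 : ℝ) / (i + 1)) * ((G1 n B h).card : ℝ)
      ≤ ∑ x ∈ Icc h (2 * h) ×ˢ range (h + 1),
        ((E n B h x.1 ∩ A n B x.1 (x.1 + x.2)).card : ℝ) := by
    rw [sum_product]
    calc (∑ i ∈ range (h + 1), (1 : ℝ) / (i + 1)) * ((G1 n B h).card : ℝ)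
        ≤ (∑ i ∈ range (h + 1), (1 : ℝ) / (i + 1)) * ∑ μ ∈ Icc h (2 * h), ((E n B h μ).card : ℝ) := by
          apply mul_le_mul_of_nonneg_left h1
          apply sum_nonneg; intro i _; positivity
      _ = ∑ μ ∈ Icc h (2 * h), ∑ i ∈ range (h + 1), ((E n B h μ).card : ℝ) * (1 / ((i : ℝ) + 1)) := by
          rw [mul_comm, sum_mul]
          apply sum_congr rfl
          intro μ _
          rw [mul_sum]
      _ = _ := by
          apply sum_congr rfl
          intro μ hμ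
          apply sum_congr rfl
          intro i hi
          rw [h2 μ hμ i hi]
  have h4 : ∑ x ∈ Icc h (2 * h) ×ˢ range (h + 1),
        ((E n B h x.1 ∩ A n B x.1 (x.1 + x.2)).card : ℝ)
      ≤ ∑ ν ∈ Icc h (3 * h), ((A n B 0 ν).card : ℝ) := by
    rw [← sum_fiberwise_of_maps_to (t := Icc h (3 * h)) (g := fun x : ℕ × ℕ => x.1 + x.2)
      (by
        intro x hx
        simp only [mem_product, mem_Icc, mem_range] at hx ⊢
        omega)]
    apply sum_le_sum
    intro ν hν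
    set F := (Icc h (2 * h) ×ˢ range (h + 1)).filter (fun x : ℕ × ℕ => x.1 + x.2 = ν) with hF
    have h5 : (F.biUnion (fun x => E n B h x.1 ∩ A n B x.1 (x.1 + x.2))).card
        = ∑ x ∈ F, (E n B h x.1 ∩ A n B x.1 (x.1 + x.2)).card := by
      apply card_biUnion
      intro x hx y hy hxy
      rw [mem_coe, hF] at hx hy
      simp only [mem_filter, mem_product, mem_Icc, mem_range] at hx hy
      have hne : x.1 ≠ y.1 := by
        intro h
        apply hxy
        ext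
        · exact h
        · omega
      apply disjoint_of_subset_left inter_subset_left
      apply disjoint_of_subset_right inter_subset_left
      exact E_disjoint hx.1.1.1 hy.1.1.1 hne
    have h6 : (F.biUnion (fun x => E n B h x.1 ∩ A n B x.1 (x.1 + x.2))) ⊆ A n B 0 ν := by
      intro f hf
      rw [mem_biUnion] at hf
      obtain ⟨x, hx, hfx⟩ := hf
      rw [hF] at hx
      simp only [mem_filter, mem_product, mem_Icc, mem_range] at hx
      have := inter_subset (n := n) (B := B) (h := h) (μ := x.1) (ν := x.1 + x.2) (by omega) hfx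
      rwa [hx.2] at this
    have h7 := card_le_card h6
    rw [h5] at h7
    exact_mod_cast h7
  have h5 : ∑ ν ∈ Icc h (3 * h), ((A n B 0 ν).card : ℝ) ≤ 2 * (B : ℝ) ^ n := by
    have h6 : ∀ ν ∈ Icc h (3 * h), ((A n B 0 ν).card : ℝ) ≤ (B : ℝ) ^ n / (h + 1) := by
      intro ν hν
      rw [mem_Icc] at hν
      have h7 := card_A (n := n) (B := B) 0 ν (by omega) hdvd hB
      rw [zero_add] at h7
      rw [h7]
      have : (h : ℝ) ≤ ν := by exact_mod_cast hν.1
      gcongr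
    calc ∑ ν ∈ Icc h (3 * h), ((A n B 0 ν).card : ℝ)
        ≤ ∑ ν ∈ Icc h (3 * h), (B : ℝ) ^ n / (h + 1) := sum_le_sum h6
      _ = (2 * h + 1) * ((B : ℝ) ^ n / (h + 1)) := by
          rw [sum_const, Nat.card_Icc, nsmul_eq_mul]
          congr 1
          have : 3 * h + 1 - h = 2 * h + 1 := by omega
          rw [this]; push_cast; ring
      _ ≤ 2 * (B : ℝ) ^ n := by
          rw [← mul_div_assoc, div_le_iff₀ (by positivity)]
          nlinarith
  linarith

end Pool.Agent.Lib.MP_6b55e5_an
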