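import Mathlib

/-!
# The lazy digit algorithm

For a real number `M` and a base `B` we expand a number `r` in the weights `(M - p) * B ^ p`,
`p < q`, always choosing the smallest admissible digit.
-/

namespace Pool.Agent.Lib.MP_6b55e5_an

open Finset

/-- maximal remainder: `T M B q = M + ∑_{p<q} (M-p) B^p (B-1)`. -/
noncomputable def T (M : ℝ) (B : ℕ) (q : ℕ) : ℝ :=
  M + ∑ p ∈ range q, (M - p) * (B : ℝ) ^ p * ((B : ℝ) - 1)

lemma T_zero (M : ℝ) (B : ℕ) : T M B 0 = M := by simp [T]

lemma T_succ (M : ℝ) (B : ℕ) (q : ℕ) :
    T M B (q + 1) = T M B q + (M - q) * (B : ℝ) ^ q * ((B : ℝ) - 1) := by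
  simp [T, sum_range_succ]; ring

lemma T_ge (M : ℝ) (B : ℕ) (q : ℕ) : (M - q) * (B : ℝ) ^ q ≤ T M B q := by
  induction q with
  | zero => simp [T_zero]
  | succ q ih =>
    rw [T_succ]
    push_cast
    have h1 : (0 : ℝ) ≤ (B : ℝ) ^ (q + 1) := by positivity
    have h2 : (M - q) * (B : ℝ) ^ q + (M - q) * (B : ℝ) ^ q * ((B : ℝ) - 1)
        = (M - q) * (B : ℝ) ^ (q + 1) := by ring
    nlinarith

lemma greedy (M : ℝ) (B : ℕ) (hB : 1 ≤ B) (q : ℕ) (hq : (q : ℝ) ≤ M + 1) (r : ℝ)
    (h0 : 0 ≤ r) (h1 : r ≤ T M B q) :
    ∃ g : ℕ → ℕ, (∀ p, g p < B) ∧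
      0 ≤ r - ∑ p ∈ range q, (M - p) * (B : ℝ) ^ p * g p ∧
      r - ∑ p ∈ range q, (M - p) * (B : ℝ) ^ p * g p ≤ M ∧
      ∀ p, p + 1 < q → g (p + 1) = 0 ∨ (B : ℝ) < (M - p) * (g p + 1) := by
  induction q generalizing r with
  | zero =>
    refine ⟨fun _ => 0, fun _ => hB, by simpa using h0, by simpa [T_zero] using h1, ?_⟩
    intro p hp; omega
  | succ q ih =>
    have hBr : (1 : ℝ) ≤ B := by exact_mod_cast hB
    have hBpos : (0 : ℝ) < B := by linarith
    push_cast at hq
    have hMq : 0 ≤ M - q := by linarith
    by_cases hr : r ≤ T M B q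
    · obtain ⟨g, hg, hg0, hg1, hg2⟩ := ih (by linarith) r h0 hr
      refine ⟨Function.update g q 0, ?_, ?_, ?_, ?_⟩
      · intro p
        by_cases hp : p = q
        · subst hp; simp; omega
        · simp [Function.update_of_ne hp, hg p]
      · rw [sum_range_succ]
        have : ∑ p ∈ range q, (M - p) * (B : ℝ) ^ p * ((Function.update g q 0) p : ℕ)
            = ∑ p ∈ range q, (M - p) * (B : ℝ) ^ p * g p := by
          apply sum_congr rfl
          intro p hp
          rw [Function.update_of_ne (by have := mem_range.1 hp; omega)]
        rw [this]; simpa using hg0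
      · rw [sum_range_succ]
        have : ∑ p ∈ range q, (M - p) * (B : ℝ) ^ p * ((Function.update g q 0) p : ℕ)
            = ∑ p ∈ range q, (M - p) * (B : ℝ) ^ p * g p := by
          apply sum_congr rfl
          intro p hp
          rw [Function.update_of_ne (by have := mem_range.1 hp; omega)]
        rw [this]; simpa using hg1
      · intro p hp
        by_cases hpq : p + 1 = q
        · left; simp [hpq]
        · rw [Function.update_of_ne hpq, Function.update_of_ne (by omega)]
          exact hg2 p (by omega)
    · push Not at hr
      -- the weight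
      set W : ℝ := (M - q) * (B : ℝ) ^ q with hW
      have hW0 : 0 ≤ W := by positivity
      have hTs : T M B (q + 1) = T M B q + W * ((B : ℝ) - 1) := by rw [T_succ]
      have hex : ∃ d : ℕ, r - W * d ≤ T M B q := by
        refine ⟨B - 1, ?_⟩
        rw [Nat.cast_sub hB]; push_cast
        linarith [hTs ▸ h1]
      classical
      set d := Nat.find hex with hd
      have hd1 : r - W * d ≤ T M B q := Nat.find_spec hex
      have hdB : d ≤ B - 1 := by
        apply Nat.find_min' hex
        rw [Nat.cast_sub hB]; push_cast
        linarith [hTs ▸ h1]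
      have hdpos : d ≠ 0 := by
        intro h
        rw [h] at hd1
        simp at hd1
        linarith
      obtain ⟨d', hd'⟩ := Nat.exists_eq_succ_of_ne_zero hdpos
      have hmin : T M B q < r - W * d' := by
        have := Nat.find_min hex (m := d') (by omega)
        push Not at this
        exact this
      have hlow : T M B q - W < r - W * d := by
        rw [hd']; push_cast; linarith
      have hr'0 : 0 ≤ r - W * d := by
        have := T_ge M B q
        rw [← hW] at this
        linarith
      obtain ⟨g, hg, hg0, hg1, hg2⟩ := ih (by linarith) (r - W * d) hr'0 hd1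
      have hsum : ∑ p ∈ range q, (M - p) * (B : ℝ) ^ p * ((Function.update g q d) p : ℕ)
            = ∑ p ∈ range q, (M - p) * (B : ℝ) ^ p * g p := by
          apply sum_congr rfl
          intro p hp
          rw [Function.update_of_ne (by have := mem_range.1 hp; omega)]
      refine ⟨Function.update g q d, ?_, ?_, ?_, ?_⟩
      · intro p
        by_cases hp : p = q
        · subst hp; simp; omega
        · simp [Function.update_of_ne hp, hg p]
      · rw [sum_range_succ, hsum]
        simp only [Function.update_self]
        rw [← hW]; linarith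
      · rw [sum_range_succ, hsum]
        simp only [Function.update_self]
        rw [← hW]; linarith
      · intro p hp
        by_cases hpq : p + 1 = q
        · right
          rw [Function.update_of_ne (by omega)]
          subst hpq
          -- upper bound for the sum
          have hsum2 : ∑ i ∈ range p, (M - i) * (B : ℝ) ^ i * g i
              ≤ ∑ i ∈ range p, (M - i) * (B : ℝ) ^ i * ((B : ℝ) - 1) := by
            apply sum_le_sum
            intro i hi
            have hi' : (i : ℝ) ≤ p := by exact_mod_cast (mem_range.1 hi).le
            have hMi : 0 ≤ M - i := by push_cast at hMq; linarith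
            have hgi : (g i : ℝ) ≤ (B : ℝ) - 1 := by
              have : g i + 1 ≤ B := hg i
              have : ((g i + 1 : ℕ) : ℝ) ≤ B := by exact_mod_cast this
              push_cast at this; linarith
            apply mul_le_mul_of_nonneg_left hgi
            positivity
          rw [sum_range_succ] at hg1
          have hTp : T M B (p + 1) = M + ∑ i ∈ range p, (M - i) * (B : ℝ) ^ i * ((B : ℝ) - 1)
              + (M - p) * (B : ℝ) ^ p * ((B : ℝ) - 1) := by
            simp [T, sum_range_succ]; ring
          have key : (M - p) * (B : ℝ) ^ p * ((B : ℝ) - 1) - W < (M - p) * (B : ℝ) ^ p * g p := by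
            linarith
          have hBp : (0 : ℝ) < (B : ℝ) ^ p := by positivity
          have hWp : W = (M - p - 1) * B * (B : ℝ) ^ p := by
            rw [hW]; push_cast; ring
          rw [hWp] at key
          have key2 : ((M - p) * ((B : ℝ) - 1) - (M - p - 1) * B) * (B : ℝ) ^ p
              < ((M - p) * g p) * (B : ℝ) ^ p := by linarith
          have key3 := lt_of_mul_lt_mul_right key2 hBp.le
          linarith
        · rw [Function.update_of_ne hpq, Function.update_of_ne (by omega)]
          exact hg2 p (by omega)

end Pool.Agent.Lib.MP_6b55e5_an
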