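import Mathlib
import Pool.Agent.Lib.MP_6b55e5_an.Greedy
import Pool.Agent.Lib.MP_6b55e5_an.Density

/-!
# The block lemma

For every `ε > 0` there are `Q` lines with slopes `-d / Q`, `d < Q`, which above `[1/3, 2/3]` are
covered, up to an error `1 / Q`, by at most `ε * Q` of them.
-/

namespace Pool.Agent.Lib.MP_6b55e5_an

open Finset

/-- strings with a zero digit -/
def G0 (n B : ℕ) [NeZero B] : Finset (Fin n → Fin B) :=
  univ.biUnion (fun p : Fin n => univ.filter (fun f : Fin n → Fin B => f p = 0))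

lemma card_zero_at (n B : ℕ) [NeZero B] (p : Fin n) :
    (univ.filter (fun f : Fin n → Fin B => f p = 0)).card * B = B ^ n := by
  classical
  have h1 : univ.filter (fun f : Fin n → Fin B => f p = 0)
      = Fintype.piFinset (fun q : Fin n => if q = p then {0} else univ) := by
    ext f
    simp only [mem_filter, mem_univ, true_and, Fintype.mem_piFinset]
    constructor
    · intro h q
      by_cases hq : q = p
      · subst hq; simp [h]
      · simp [hq]
    · intro h
      have := h p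
      simpa using this
  rw [h1, Fintype.card_piFinset]
  have h2 : ∀ q : Fin n, (if q = p then ({0} : Finset (Fin B)) else univ).card
      = if q = p then 1 else B := by
    intro q; split_ifs <;> simp
  rw [prod_congr rfl (fun q _ => h2 q), prod_ite, prod_const_one, one_mul, prod_const,
    filter_ne', card_erase_of_mem (mem_univ p), card_univ, Fintype.card_fin, ← pow_succ]
  congr 1
  have := p.2
  omega

lemma card_G0 (n B : ℕ) [NeZero B] : (G0 n B).card * B ≤ n * B ^ n := by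
  calc (G0 n B).card * B
      ≤ (∑ p : Fin n, (univ.filter (fun f : Fin n → Fin B => f p = 0)).card) * B :=
        Nat.mul_le_mul_right _ card_biUnion_le
    _ = ∑ p : Fin n, B ^ n := by
        rw [sum_mul]; exact sum_congr rfl (fun p _ => card_zero_at n B p)
    _ = n * B ^ n := by simp

/-- the value of a string -/
noncomputable def V (n B : ℕ) (M : ℝ) (f : Fin n → Fin B) : ℝ :=
  ∑ p : Fin n, (M - (p : ℕ)) * (B : ℝ) ^ (p : ℕ) * (f p : ℕ)

lemma cover (h n B : ℕ) [NeZero B] (hn : n = 3 * h) (hh : 1 ≤ h) (M : ℝ) (hM1 : (h : ℝ) ≤ M)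
    (hM2 : M ≤ 2 * h) (f : Fin n → Fin B) :
    ∃ g ∈ G0 n B ∪ G1 n B h,
      0 ≤ V n B M f - V n B M g ∧ V n B M f - V n B M g ≤ M := by
  classical
  have hB1 : 1 ≤ B := Nat.one_le_iff_ne_zero.2 (NeZero.ne B)
  have hBr : (1 : ℝ) ≤ B := by exact_mod_cast hB1
  have hM0 : 0 ≤ M := le_trans (by positivity) hM1
  set μ := ⌊M⌋₊ with hμ
  have hμ1 : h ≤ μ := Nat.le_floor hM1
  have hμ2 : μ ≤ 2 * h := by
    have : ((μ : ℕ) : ℝ) ≤ ((2 * h : ℕ) : ℝ) := by
      push_cast; exact (Nat.floor_le hM0).trans hM2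
    exact_mod_cast this
  have hμM : (μ : ℝ) ≤ M := Nat.floor_le hM0
  have hMμ : M < μ + 1 := Nat.lt_floor_add_one M
  -- extension of f
  set F : ℕ → ℕ := fun p => if hp : p < n then (f ⟨p, hp⟩ : ℕ) else 0 with hF
  have hFB : ∀ p, F p < B := by
    intro p; simp only [hF]; split_ifs
    · exact Fin.is_lt _
    · omega
  have hFV : ∀ (F' : ℕ → ℕ) (f' : Fin n → Fin B), (∀ p : Fin n, F' (p : ℕ) = (f' p : ℕ)) →
      V n B M f' = ∑ p ∈ range n, (M - p) * (B : ℝ) ^ p * F' p := by
    intro F' f' hF'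
    rw [V, ← Fin.sum_univ_eq_sum_range (fun p : ℕ => (M - p) * (B : ℝ) ^ p * (F' p : ℝ)) n]
    apply sum_congr rfl
    intro p _
    rw [hF' p]
  -- greedy
  have hnonneg : ∀ p ∈ range (μ + 1), 0 ≤ (M - p) * (B : ℝ) ^ p := by
    intro p hp
    rw [mem_range] at hp
    have : (p : ℝ) ≤ μ := by exact_mod_cast (by omega : p ≤ μ)
    have : 0 ≤ M - p := by linarith
    positivity
  obtain ⟨g, hgB, hg0, hg1, hg2⟩ := greedy M B hB1 (μ + 1) (by push_cast; linarith)
    (∑ p ∈ range (μ + 1), (M - p) * (B : ℝ) ^ p * F p)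
    (sum_nonneg fun p hp => mul_nonneg (hnonneg p hp) (Nat.cast_nonneg _))
    (by
      rw [T]
      have : ∑ p ∈ range (μ + 1), (M - p) * (B : ℝ) ^ p * F p
          ≤ ∑ p ∈ range (μ + 1), (M - p) * (B : ℝ) ^ p * ((B : ℝ) - 1) := by
        apply sum_le_sum
        intro p hp
        apply mul_le_mul_of_nonneg_left _ (hnonneg p hp)
        have : F p + 1 ≤ B := hFB p
        have : ((F p + 1 : ℕ) : ℝ) ≤ B := by exact_mod_cast this
        push_cast at this; linarith
      linarith)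
  set g' : Fin n → Fin B := fun p => if (p : ℕ) < μ + 1 then ⟨g p, hgB p⟩ else f p with hg'
  set G' : ℕ → ℕ := fun p => if p < μ + 1 then g p else F p with hG'
  have hG'g' : ∀ p : Fin n, G' (p : ℕ) = (g' p : ℕ) := by
    intro p
    simp only [hG', hg', hF]
    by_cases hp : (p : ℕ) < μ + 1
    · simp [hp]
    · simp [hp]
  have hFf : ∀ p : Fin n, F (p : ℕ) = (f p : ℕ) := by
    intro p; simp [hF]
  have hdiff : V n B M f - V n B M g' = ∑ p ∈ range (μ + 1), (M - p) * (B : ℝ) ^ p * F p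
      - ∑ p ∈ range (μ + 1), (M - p) * (B : ℝ) ^ p * g p := by
    rw [hFV F f hFf, hFV G' g' hG'g']
    have hle : μ + 1 ≤ n := by omega
    rw [← sum_range_add_sum_Ico _ hle, ← sum_range_add_sum_Ico _ hle]
    have e1 : ∑ p ∈ range (μ + 1), (M - p) * (B : ℝ) ^ p * (G' p : ℝ)
        = ∑ p ∈ range (μ + 1), (M - p) * (B : ℝ) ^ p * (g p : ℝ) := by
      apply sum_congr rfl
      intro p hp
      rw [mem_range] at hp
      simp only [hG', hp, if_true]
    have e2 : ∑ p ∈ Ico (μ + 1) n, (M - p) * (B : ℝ) ^ p * (G' p : ℝ)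
        = ∑ p ∈ Ico (μ + 1) n, (M - p) * (B : ℝ) ^ p * (F p : ℝ) := by
      apply sum_congr rfl
      intro p hp
      rw [mem_Ico] at hp
      have : ¬ p < μ + 1 := by omega
      simp only [hG', this, if_false]
    rw [e1, e2]; ring
  refine ⟨g', ?_, ?_, ?_⟩
  · by_cases hz : ∃ p : Fin n, g' p = 0
    · apply mem_union_left
      obtain ⟨p, hp⟩ := hz
      simp only [G0, mem_biUnion, mem_filter, mem_univ, true_and]
      exact ⟨p, hp⟩
    · apply mem_union_right
      push Not at hz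
      rw [mem_G1]
      refine ⟨μ, hμ1, hμ2, ?_⟩
      rw [mem_A]
      intro p _ hp
      have h1 : (p : ℕ) + 1 < μ + 1 := by omega
      have hp1n : (p : ℕ) + 1 < n := by omega
      have h2 : g ((p : ℕ) + 1) ≠ 0 := by
        intro h0
        apply hz ⟨(p : ℕ) + 1, hp1n⟩
        apply Fin.ext
        simp only [hg', h1, if_true, h0, Fin.val_zero]
      have h3 := (hg2 p h1).resolve_left h2
      have h4 : (g' p : ℕ) = g p := by
        simp only [hg', show (p : ℕ) < μ + 1 by omega, if_true]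
      rw [h4]
      have h5 : (B : ℝ) < ((μ + 1 - (p : ℕ) : ℕ) : ℝ) * ((g p : ℝ) + 1) := by
        refine lt_of_lt_of_le h3 ?_
        rw [Nat.cast_sub (by omega)]
        push_cast
        have : (0 : ℝ) ≤ (g p : ℝ) + 1 := by positivity
        apply mul_le_mul_of_nonneg_right _ this
        linarith
      exact_mod_cast h5
  · rw [hdiff]; exact hg0
  · rw [hdiff]; exact hg1

theorem block (ε : ℝ) (hε : 0 < ε) : ∃ (Q : ℕ) (ξ : ℕ → ℝ) (G : Finset ℕ),
    2 ≤ Q ∧ (∀ d, 0 ≤ ξ d ∧ ξ d ≤ 1) ∧ (∀ g ∈ G, g < Q) ∧ (G.card : ℝ) ≤ ε * Q ∧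
    ∀ s : ℝ, 1 / 3 ≤ s → s ≤ 2 / 3 → ∀ d < Q, ∃ g ∈ G,
      |(ξ d - s * (d / Q)) - (ξ g - s * (g / Q))| ≤ 1 / Q := by
  classical
  -- choice of h
  have htend := Real.tendsto_sum_range_one_div_nat_succ_atTop
  obtain ⟨h, hh1, hh⟩ : ∃ h : ℕ, 1 ≤ h ∧ 4 / ε ≤ ∑ i ∈ range (h + 1), (1 : ℝ) / (i + 1) := by
    have h1 := (Filter.tendsto_atTop.1 htend (4 / ε))
    have h2 := (h1.and (Filter.eventually_ge_atTop 2)).exists
    obtain ⟨k, hk1, hk2⟩ := h2
    refine ⟨k - 1, by omega, ?_⟩
    have : k - 1 + 1 = k := by omega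
    rw [this]
    exact hk1
  set n := 3 * h with hn
  -- choice of B
  obtain ⟨N, hN⟩ := exists_nat_gt (2 * n / ε)
  set B := Nat.factorial (n + 1) * (N + 2) with hB
  have hfac : 1 ≤ Nat.factorial (n + 1) := Nat.factorial_pos _
  have hB2 : 2 ≤ B := by
    calc 2 = 1 * 2 := by norm_num
      _ ≤ Nat.factorial (n + 1) * (N + 2) := Nat.mul_le_mul hfac (by omega)
  have hBN : (N : ℝ) ≤ B := by
    have : N ≤ B := by
      calc N = 1 * N := by ring
        _ ≤ Nat.factorial (n + 1) * (N + 2) := Nat.mul_le_mul hfac (by omega)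
    exact_mod_cast this
  have : NeZero B := ⟨by omega⟩
  have hdvd : ∀ l, 0 < l → l ≤ n + 1 → l ∣ B := fun l hl hl2 =>
    (Nat.dvd_factorial hl hl2).mul_right _
  have hB0 : 0 < B := by omega
  have hBr : (0 : ℝ) < B := by exact_mod_cast hB0
  have hnpos : 0 < n := by omega
  have hnr : (0 : ℝ) < n := by exact_mod_cast hnpos
  set Q := B ^ n with hQ
  have hQr : (Q : ℝ) = (B : ℝ) ^ n := by rw [hQ]; push_cast; rfl
  have hQpos : (0 : ℝ) < Q := by rw [hQr]; positivity
  have hQ2 : 2 ≤ Q := by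
    calc 2 ≤ B := hB2
      _ = B ^ 1 := by ring
      _ ≤ B ^ n := Nat.pow_le_pow_right hB0 hnpos
  -- the functional
  let dig : ℕ → (Fin n → Fin B) := fun d =>
    if hd : d < B ^ n then finFunctionFinEquiv.symm ⟨d, hd⟩ else 0
  let val : (Fin n → Fin B) → ℕ := fun f => (finFunctionFinEquiv f : ℕ)
  have hval : ∀ f, (val f : ℝ) = ∑ p : Fin n, (f p : ℕ) * (B : ℝ) ^ (p : ℕ) := by
    intro f
    simp only [val]
    rw [finFunctionFinEquiv_apply]
    push_cast
    rfl
  have hdigval : ∀ f, dig (val f) = f := by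
    intro f
    simp only [dig, val]
    rw [dif_pos (Fin.is_lt _), Fin.eta, Equiv.symm_apply_apply]
  have hvaldig : ∀ d, d < Q → val (dig d) = d := by
    intro d hd
    simp only [dig, val]
    rw [dif_pos hd]
    simp
  have hvalQ : ∀ f, val f < Q := fun f => Fin.is_lt _
  let ξ : ℕ → ℝ := fun d => V n B n (dig d) / (n * Q)
  have hV0 : ∀ f, 0 ≤ V n B n f := by
    intro f
    apply sum_nonneg
    intro p _
    have : ((p : ℕ) : ℝ) ≤ n := by exact_mod_cast p.2.le
    have : (0 : ℝ) ≤ n - (p : ℕ) := by linarith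
    positivity
  have hV1 : ∀ f, V n B n f ≤ n * Q := by
    intro f
    have h1 : V n B n f ≤ n * (val f : ℝ) := by
      rw [hval, V, mul_sum]
      apply sum_le_sum
      intro p _
      have h2 : (0 : ℝ) ≤ (B : ℝ) ^ (p : ℕ) * (f p : ℕ) := by positivity
      have h3 : (0 : ℝ) ≤ ((p : ℕ) : ℝ) := by positivity
      nlinarith
    have h2 : (val f : ℝ) ≤ Q := by exact_mod_cast (hvalQ f).le
    nlinarith
  -- the value of the line
  have hline : ∀ (f : Fin n → Fin B) (s : ℝ),
      ξ (val f) - s * ((val f : ℝ) / Q) = V n B (n * (1 - s)) f / (n * Q) := by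
    intro f s
    simp only [ξ]
    rw [hdigval]
    have h1 : V n B (n * (1 - s)) f = V n B n f - n * s * (val f : ℝ) := by
      rw [hval, V, V, mul_sum, ← sum_sub_distrib]
      apply sum_congr rfl
      intro p _
      ring
    rw [h1]
    field_simp
  refine ⟨Q, ξ, (G0 n B ∪ G1 n B h).image val, hQ2, ?_, ?_, ?_, ?_⟩
  · intro d
    refine ⟨div_nonneg (hV0 _) (by positivity), ?_⟩
    rw [div_le_one (by positivity)]
    exact hV1 _
  · intro g hg
    rw [mem_image] at hg
    obtain ⟨f, -, rfl⟩ := hg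
    exact hvalQ f
  · -- density
    have h1 : ((G0 n B).card : ℝ) ≤ ε / 2 * Q := by
      have h2 : ((G0 n B).card : ℝ) * B ≤ n * (B : ℝ) ^ n := by exact_mod_cast card_G0 n B
      have h3 : (2 * n / ε : ℝ) ≤ B := by linarith
      have h4 : 2 * (n : ℝ) ≤ B * ε := by rwa [div_le_iff₀ hε] at h3
      rw [← hQr] at h2
      have h5 : ((G0 n B).card : ℝ) * B ≤ (ε / 2 * Q) * B := by
        calc ((G0 n B).card : ℝ) * B ≤ n * Q := h2
          _ ≤ (B * ε / 2) * Q := by
              apply mul_le_mul_of_nonneg_right _ hQpos.le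
              linarith
          _ = (ε / 2 * Q) * B := by ring
      exact le_of_mul_le_mul_right h5 hBr
    have h2 : ((G1 n B h).card : ℝ) ≤ ε / 2 * Q := by
      have h3 := harmonic_bound (n := n) (B := B) h hn hdvd hB0
      rw [← hQr] at h3
      have h4 : 4 / ε * ((G1 n B h).card : ℝ) ≤ 2 * Q :=
        le_trans (mul_le_mul_of_nonneg_right hh (Nat.cast_nonneg _)) h3
      rw [div_mul_eq_mul_div, div_le_iff₀ hε] at h4
      linarith
    have h3 : (((G0 n B ∪ G1 n B h).image val).card : ℝ)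
        ≤ ((G0 n B).card : ℝ) + ((G1 n B h).card : ℝ) := by
      have : ((G0 n B ∪ G1 n B h).image val).card ≤ (G0 n B).card + (G1 n B h).card :=
        card_image_le.trans (card_union_le _ _)
      exact_mod_cast this
    linarith
  · intro s hs1 hs2 d hd
    set M : ℝ := n * (1 - s) with hM
    have hnh : (n : ℝ) = 3 * h := by rw [hn]; push_cast; ring
    have hh0 : (0 : ℝ) < h := by exact_mod_cast hh1
    have hM1 : (h : ℝ) ≤ M := by rw [hM, hnh]; nlinarith
    have hM2 : M ≤ 2 * h := by rw [hM, hnh]; nlinarith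
    obtain ⟨g, hg, hg0, hg1⟩ := cover h n B hn hh1 M hM1 hM2 (dig d)
    refine ⟨val g, mem_image_of_mem val hg, ?_⟩
    have h1 := hline (dig d) s
    rw [hvaldig d hd] at h1
    rw [h1, hline g s, ← hM, ← sub_div, abs_of_nonneg (div_nonneg hg0 (by positivity)),
      div_le_div_iff₀ (by positivity) hQpos]
    have h2 : M ≤ n := by rw [hnh]; linarith
    nlinarith

end Pool.Agent.Lib.MP_6b55e5_an
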