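import Mathlib
import Pool.Agent.Lib.MP_6b55e5_an.Block

/-!
# The family of lines
-/

namespace Pool.Agent.Lib.MP_6b55e5_an

open Finset

lemma block_err (x1 x2 d g Pm Qm s : ℝ) (hP : 0 < Pm) (hQ : 0 < Qm)
    (h : |(x1 - s * (d / Qm)) - (x2 - s * (g / Qm))| ≤ 1 / Qm) :
    |(x1 / Pm - s * (d / (Pm * Qm))) - (x2 / Pm - s * (g / (Pm * Qm)))| ≤ 1 / (Pm * Qm) := by
  have e : (x1 / Pm - s * (d / (Pm * Qm))) - (x2 / Pm - s * (g / (Pm * Qm)))
      = ((x1 - s * (d / Qm)) - (x2 - s * (g / Qm))) / Pm := by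
    field_simp
  rw [e, abs_div, abs_of_pos hP, div_le_iff₀ hP]
  refine h.trans (le_of_eq ?_)
  field_simp

lemma final_err (x1 x2 d g Pm P1 s a A1 B1 tail : ℝ) (hP1 : 0 < P1)
    (hs0 : 0 ≤ s) (hs1 : s ≤ 1)
    (h3 : |(x1 / Pm - s * (d / P1)) - (x2 / Pm - s * (g / P1))| ≤ 1 / P1)
    (ht0 : 0 ≤ tail) (ht1 : tail ≤ 2 / P1) (hr1 : A1 + d / P1 ≤ a) (hr2 : a ≤ A1 + d / P1 + 1 / P1) :
    |(B1 + x1 / Pm + tail - s * a) - (B1 + x2 / Pm - s * (A1 + g / P1))| ≤ 3 / P1 := by
  set u := 1 / P1 with hu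
  have hu0 : 0 < u := by rw [hu]; positivity
  have e2 : 2 / P1 = 2 * u := by rw [hu]; ring
  have e3 : 3 / P1 = 3 * u := by rw [hu]; ring
  rw [e2] at ht1
  rw [e3, abs_le]
  have h3' := abs_le.1 h3
  have h4 : 0 ≤ s * (a - (A1 + d / P1)) := mul_nonneg hs0 (by linarith)
  have h5 : s * (a - (A1 + d / P1)) ≤ u := by
    calc s * (a - (A1 + d / P1)) ≤ s * u := mul_le_mul_of_nonneg_left (by linarith) hs0
      _ ≤ u := by nlinarith
  have h6 : (B1 + x1 / Pm + tail - s * a) - (B1 + x2 / Pm - s * (A1 + g / P1))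
      = ((x1 / Pm - s * (d / P1)) - (x2 / Pm - s * (g / P1))) + tail
        - s * (a - (A1 + d / P1)) := by ring
  rw [h6]
  constructor
  · linarith [h3'.1]
  · linarith [h3'.2]

/-- There is a family of lines `y = φ a - s * a`, one for each slope `-a` with `0 ≤ a < 1`, such
that above the interval `[1/3, 2/3]` the union of the lines is covered by finitely many strips
of arbitrarily small total width. -/
theorem exists_family : ∃ φ : ℝ → ℝ, (∀ a, 0 ≤ φ a ∧ φ a ≤ 2) ∧
    ∀ ε : ℝ, 0 < ε → ∃ (S : Finset (ℝ × ℝ)) (δ : ℝ), 0 < δ ∧ (S.card : ℝ) * δ ≤ ε ∧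
      ∀ a, 0 ≤ a → a < 1 → ∀ s, 1 / 3 ≤ s → s ≤ 2 / 3 →
        ∃ q ∈ S, |(φ a - s * a) - (q.2 - s * q.1)| ≤ δ := by
  classical
  have hblock := fun m : ℕ => block (1 / ((m : ℝ) + 1)) (by positivity)
  choose Q ξ G hQ2 hξ hGlt hGcard hcov using hblock
  -- the products
  obtain ⟨P, hP⟩ : ∃ P : ℕ → ℕ, P = fun m => ∏ i ∈ range m, Q i := ⟨_, rfl⟩
  have hP0 : P 0 = 1 := by simp [hP]
  have hPs : ∀ m, P (m + 1) = P m * Q m := by intro m; simp [hP, prod_range_succ]
  have hPpos : ∀ m, 0 < P m := by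
    intro m
    rw [hP]
    apply prod_pos
    intro i _
    have := hQ2 i; omega
  have hPr : ∀ m, (0 : ℝ) < P m := fun m => by exact_mod_cast hPpos m
  have hQr : ∀ m, (0 : ℝ) < Q m := fun m => by
    have := hQ2 m
    exact_mod_cast (by omega : 0 < Q m)
  have hPsr : ∀ m, (P (m + 1) : ℝ) = P m * Q m := by intro m; rw [hPs]; push_cast; rfl
  have hPgrow : ∀ k i, (P k : ℝ) * 2 ^ i ≤ P (i + k) := by
    intro k i
    induction i with
    | zero => simp
    | succ i ih =>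
      have e : i + 1 + k = (i + k) + 1 := by ring
      rw [e, hPsr]
      have h2 : (2 : ℝ) ≤ Q (i + k) := by exact_mod_cast hQ2 (i + k)
      calc (P k : ℝ) * 2 ^ (i + 1) = (P k * 2 ^ i) * 2 := by ring
        _ ≤ P (i + k) * 2 := by gcongr
        _ ≤ P (i + k) * Q (i + k) := by
            apply mul_le_mul_of_nonneg_left h2 (hPr _).le
  -- the digits
  obtain ⟨D, hD⟩ : ∃ D : ℝ → ℕ → ℕ, D = fun (a : ℝ) m => ⌊a * (P (m + 1) : ℝ)⌋₊ % Q m := ⟨_, rfl⟩
  have hDlt : ∀ a m, D a m < Q m := by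
    intro a m
    rw [hD]
    apply Nat.mod_lt
    have := hQ2 m; omega
  have hfloor : ∀ a : ℝ, 0 ≤ a → ∀ m, ⌊a * P (m + 1)⌋₊ = Q m * ⌊a * P m⌋₊ + D a m := by
    intro a ha m
    have h1 : ⌊a * P m⌋₊ = ⌊a * P (m + 1)⌋₊ / Q m := by
      rw [← Nat.floor_div_natCast, hPsr]
      congr 1
      have hq := (hQr m).ne'
      field_simp
    rw [h1, hD]
    exact (Nat.div_add_mod _ _).symm
  have htel : ∀ a : ℝ, 0 ≤ a → a < 1 → ∀ m,
      ∑ i ∈ range m, (D a i : ℝ) / P (i + 1) = ⌊a * P m⌋₊ / P m := by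
    intro a ha ha1 m
    induction m with
    | zero =>
      have : ⌊a⌋₊ = 0 := Nat.floor_eq_zero.2 ha1
      simp [hP0, this]
    | succ m ih =>
      rw [sum_range_succ, ih, hfloor a ha m]
      push_cast
      rw [hPsr]
      have := hPr m
      have := hQr m
      field_simp
  -- the intercept
  have hterm : ∀ a i, 0 ≤ ξ i (D a i) / (P i : ℝ) ∧ ξ i (D a i) / (P i : ℝ) ≤ (1 / 2) ^ i := by
    intro a i
    have h1 := hξ i (D a i)
    refine ⟨div_nonneg h1.1 (hPr i).le, ?_⟩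
    rw [div_le_iff₀ (hPr i)]
    have h2 := hPgrow 0 i
    rw [hP0] at h2
    simp only [Nat.cast_one, one_mul, add_zero] at h2
    calc ξ i (D a i) ≤ 1 := h1.2
      _ = (1 / 2) ^ i * 2 ^ i := by rw [← mul_pow]; norm_num
      _ ≤ (1 / 2) ^ i * P i := by gcongr
  have hgeom : Summable (fun i : ℕ => ((1 : ℝ) / 2) ^ i) := summable_geometric_two
  have hsum : ∀ a, Summable (fun i => ξ i (D a i) / (P i : ℝ)) := by
    intro a
    exact Summable.of_nonneg_of_le (fun i => (hterm a i).1) (fun i => (hterm a i).2) hgeom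
  refine ⟨fun a => ∑' i, ξ i (D a i) / (P i : ℝ), ?_, ?_⟩
  · intro a
    refine ⟨tsum_nonneg (fun i => (hterm a i).1), ?_⟩
    calc ∑' i, ξ i (D a i) / (P i : ℝ) ≤ ∑' i : ℕ, ((1 : ℝ) / 2) ^ i :=
          (hsum a).tsum_le_tsum (fun i => (hterm a i).2) hgeom
      _ = 2 := tsum_geometric_two
  · intro ε hε
    obtain ⟨m, hm⟩ := exists_nat_gt (3 / ε)
    -- the strips
    set S : Finset (ℝ × ℝ) := ((univ : Finset ((i : Fin m) → Fin (Q i))) ×ˢ G m).image
      (fun z => ((∑ i : Fin m, ((z.1 i : ℕ) : ℝ) / P ((i : ℕ) + 1)) + (z.2 : ℝ) / P (m + 1),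
        (∑ i : Fin m, ξ i (z.1 i : ℕ) / P (i : ℕ)) + ξ m z.2 / P m)) with hS
    refine ⟨S, 3 / P (m + 1), div_pos (by norm_num) (hPr _), ?_, ?_⟩
    · have h1 : S.card ≤ P m * (G m).card := by
        calc S.card ≤ ((univ : Finset ((i : Fin m) → Fin (Q i))) ×ˢ G m).card := card_image_le
          _ = P m * (G m).card := by
              rw [card_product, card_univ, Fintype.card_pi]
              congr 1
              simp only [Fintype.card_fin, hP]
              exact Fin.prod_univ_eq_prod_range (fun i => Q i) m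
      have h2 : (S.card : ℝ) ≤ P m * (G m).card := by exact_mod_cast h1
      have h3 : (S.card : ℝ) ≤ P m * (1 / ((m : ℝ) + 1) * Q m) :=
        h2.trans (mul_le_mul_of_nonneg_left (hGcard m) (hPr m).le)
      have h4 : (P m : ℝ) * (1 / ((m : ℝ) + 1) * Q m) = P (m + 1) / ((m : ℝ) + 1) := by
        rw [hPsr]; ring
      rw [h4] at h3
      have hPm := hPr (m + 1)
      calc (S.card : ℝ) * (3 / P (m + 1)) ≤ P (m + 1) / ((m : ℝ) + 1) * (3 / P (m + 1)) := by
            gcongr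
        _ = 3 / ((m : ℝ) + 1) := by field_simp
        _ ≤ ε := by
            rw [div_le_iff₀ (by positivity)]
            rw [div_lt_iff₀ hε] at hm
            nlinarith
    · intro a ha ha1 s hs1 hs2
      obtain ⟨g, hg, hg1⟩ := hcov m s hs1 hs2 (D a m) (hDlt a m)
      refine ⟨_, mem_image_of_mem _ (mk_mem_product (mem_univ (fun i : Fin m =>
        (⟨D a i, hDlt a i⟩ : Fin (Q i)))) hg), ?_⟩
      simp only
      rw [Fin.sum_univ_eq_sum_range (fun i => (D a i : ℝ) / P (i + 1)) m,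
        Fin.sum_univ_eq_sum_range (fun i => ξ i (D a i) / (P i : ℝ)) m]
      -- splitting the series
      have h1 := (hsum a).sum_add_tsum_nat_add (m + 1)
      set tail := ∑' i, ξ (i + (m + 1)) (D a (i + (m + 1))) / (P (i + (m + 1)) : ℝ) with htail
      have htail0 : 0 ≤ tail := tsum_nonneg (fun i => (hterm a _).1)
      have htail1 : tail ≤ 2 / P (m + 1) := by
        have h2 : ∀ i, ξ (i + (m + 1)) (D a (i + (m + 1))) / (P (i + (m + 1)) : ℝ)
            ≤ (1 / P (m + 1)) * (1 / 2) ^ i := by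
          intro i
          have h3 := hξ (i + (m + 1)) (D a (i + (m + 1)))
          rw [div_le_iff₀ (hPr _)]
          have h4 := hPgrow (m + 1) i
          have h5 := hPr (m + 1)
          calc ξ (i + (m + 1)) (D a (i + (m + 1))) ≤ 1 := h3.2
            _ = (1 / P (m + 1)) * (1 / 2) ^ i * (P (m + 1) * 2 ^ i) := by
                have : ((1 : ℝ) / 2) ^ i * 2 ^ i = 1 := by rw [← mul_pow]; norm_num
                calc (1 : ℝ) = ((1 : ℝ) / 2) ^ i * 2 ^ i := this.symm
                  _ = _ := by field_simp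
            _ ≤ _ := by gcongr
        calc tail ≤ ∑' i : ℕ, (1 / P (m + 1)) * ((1 : ℝ) / 2) ^ i := by
              apply Summable.tsum_le_tsum h2
              · exact (summable_nat_add_iff (m + 1)).2 (hsum a)
              · exact hgeom.mul_left _
          _ = 2 / P (m + 1) := by
              rw [tsum_mul_left, tsum_geometric_two]; ring
      -- the remainder of a
      have h2 := htel a ha ha1 (m + 1)
      rw [sum_range_succ] at h1 h2
      have hPm1 := hPr (m + 1)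
      have hρ1 : (⌊a * P (m + 1)⌋₊ : ℝ) / P (m + 1) ≤ a := by
        rw [div_le_iff₀ hPm1]
        exact Nat.floor_le (by positivity)
      have hρ2 : a ≤ (⌊a * P (m + 1)⌋₊ : ℝ) / P (m + 1) + 1 / P (m + 1) := by
        rw [← add_div, le_div_iff₀ hPm1]
        exact (Nat.lt_floor_add_one _).le
      rw [← h2] at hρ1 hρ2
      rw [← h1]
      -- the block error
      have h3 := block_err (ξ m (D a m)) (ξ m g) (D a m) g (P m) (Q m) s (hPr m) (hQr m) hg1
      rw [← hPsr] at h3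
      have hs0 : (0 : ℝ) ≤ s := le_trans (by norm_num) hs1
      have hs1' : s ≤ (1 : ℝ) := le_trans hs2 (by norm_num)
      exact final_err _ _ _ _ _ _ s a _ _ _ hPm1 hs0 hs1' h3 htail0 htail1
        hρ1 hρ2

end Pool.Agent.Lib.MP_6b55e5_an
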