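import Mathlib

/-!
# Besicovitch sets and strip coverings: definitions
-/

namespace Pool.Agent.Lib.MP_6b55e5_an

/-- The Euclidean plane. -/
abbrev Plane : Type := EuclideanSpace ℝ (Fin 2)

/-- The closed strip between the parallel lines `⟪n, x⟫ = c` and `⟪n, x⟫ = c + w`.
For a unit vector `n` and `w > 0` it has width `w`. -/
def strip (n : Plane) (c w : ℝ) : Set Plane :=
  {x | c ≤ inner ℝ n x ∧ inner ℝ n x ≤ c + w}

/-- A Besicovitch set: a bounded plane set of Lebesgue measure zero that contains a closed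
segment of length one in every direction. -/
def IsBesicovitch (E : Set Plane) : Prop :=
  Bornology.IsBounded E ∧ MeasureTheory.volume E = 0 ∧
    ∀ e : Plane, ‖e‖ = 1 → ∃ p : Plane, segment ℝ p (p + e) ⊆ E

/-- Property (S): for every `ε > 0` the set can be covered by a finite or countably infinite
family of strips (unit normals `n i`, widths `w i > 0`) whose widths have sum less than `ε`. -/
def PropertyS (E : Set Plane) : Prop :=
  ∀ ε : ℝ, 0 < ε → ∃ (ι : Type) (_ : Countable ι) (n : ι → Plane) (c w : ι → ℝ),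
    (∀ i, ‖n i‖ = 1) ∧ (∀ i, 0 < w i) ∧ (E ⊆ ⋃ i, strip (n i) (c i) (w i)) ∧
      Summable w ∧ ∑' i, w i < ε

end Pool.Agent.Lib.MP_6b55e5_an
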