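import Mathlib
import Pool.Agent.Lib.MP_6b55e5_an.Defs

/-!
# Generalities on the plane
-/

namespace Pool.Agent.Lib.MP_6b55e5_an

open MeasureTheory

/-- coordinates -/
def coords (x : Plane) : ℝ × ℝ := (x 0, x 1)

lemma coords_continuous : Continuous coords := by
  unfold coords
  fun_prop

lemma coords_measurePreserving : MeasurePreserving coords := by
  have h1 := EuclideanSpace.volume_preserving_symm_measurableEquiv_toLp (Fin 2)
  have h2 := volume_preserving_finTwoArrow ℝ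
  have h3 := h2.comp h1
  have e : coords = (MeasurableEquiv.finTwoArrow (α := ℝ)) ∘
      ((MeasurableEquiv.toLp 2 (Fin 2 → ℝ)).symm) := by
    ext x <;> simp [coords, MeasurableEquiv.finTwoArrow]
  rw [e]
  exact h3

lemma inner_eq (v x : Plane) : inner ℝ v x = v 0 * x 0 + v 1 * x 1 := by
  simp [PiLp.inner_apply, Fin.sum_univ_two, mul_comm]

lemma norm_sq_eq (v : Plane) : ‖v‖ ^ 2 = v 0 ^ 2 + v 1 ^ 2 := by
  rw [EuclideanSpace.norm_sq_eq]
  simp [Fin.sum_univ_two]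

/-- A strip given by an unnormalised normal vector. -/
lemma mem_strip_of_abs (v : Plane) (hv : 1 ≤ ‖v‖) (b δ : ℝ) (hδ : 0 < δ) (x : Plane)
    (hx : |inner ℝ v x - b| ≤ δ) :
    x ∈ strip (‖v‖⁻¹ • v) ((b - δ) / ‖v‖) (2 * δ) := by
  have hv0 : 0 < ‖v‖ := by linarith
  have h := abs_le.1 hx
  constructor
  · rw [inner_smul_left]
    simp only [conj_trivial]
    rw [div_le_iff₀ hv0]
    have : ‖v‖⁻¹ * inner ℝ v x * ‖v‖ = inner ℝ v x := by field_simp
    rw [this]; linarith [h.1]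
  · rw [inner_smul_left]
    simp only [conj_trivial]
    have h1 : ‖v‖⁻¹ * inner ℝ v x ≤ ‖v‖⁻¹ * (b + δ) := by
      apply mul_le_mul_of_nonneg_left _ (inv_nonneg.2 hv0.le)
      linarith [h.2]
    have h2 : ‖v‖⁻¹ * (b + δ) = (b - δ) / ‖v‖ + ‖v‖⁻¹ * (2 * δ) := by field_simp; ring
    have h3 : ‖v‖⁻¹ ≤ 1 := inv_le_one_of_one_le₀ hv
    have h4 : ‖v‖⁻¹ * (2 * δ) ≤ 2 * δ := by nlinarith
    linarith

lemma norm_normalize (v : Plane) (hv : 1 ≤ ‖v‖) : ‖‖v‖⁻¹ • v‖ = 1 := by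
  have hv0 : 0 < ‖v‖ := by linarith
  rw [norm_smul, norm_inv, norm_norm, inv_mul_cancel₀ hv0.ne']

end Pool.Agent.Lib.MP_6b55e5_an
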