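import Mathlib
import Pool.Agent.Lib.MP_6b55e5_an.Plane
import Pool.Agent.Lib.MP_6b55e5_an.Family

/-!
# A compact Besicovitch set with property (S)
-/

namespace Pool.Agent.Lib.MP_6b55e5_an

open MeasureTheory Set

/-- the raw set in coordinates, for a given family of lines -/
def Araw (φ : ℝ → ℝ) : Set (ℝ × ℝ) :=
  {p | ∃ a s : ℝ, 0 ≤ a ∧ a < 1 ∧ 1 / 3 ≤ s ∧ s ≤ 2 / 3 ∧
    p = (3 * s, 9 * (φ a - s * a) + 9 / 2 * s)}

/-- the set in the plane -/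
def KS (φ : ℝ → ℝ) : Set Plane :=
  coords ⁻¹' (closure (Araw φ)) ∪ (Prod.swap ∘ coords) ⁻¹' (closure (Araw φ))

lemma Araw_cover {φ : ℝ → ℝ} {S : Finset (ℝ × ℝ)} {δ : ℝ}
    (h : ∀ a, 0 ≤ a → a < 1 → ∀ s, 1 / 3 ≤ s → s ≤ 2 / 3 →
        ∃ q ∈ S, |(φ a - s * a) - (q.2 - s * q.1)| ≤ δ) :
    ∀ p ∈ closure (Araw φ), ∃ q ∈ S, |(3 * q.1 - 3 / 2) * p.1 + p.2 - 9 * q.2| ≤ 9 * δ := by
  have hsub : closure (Araw φ) ⊆
      ⋃ q ∈ S, {p : ℝ × ℝ | |(3 * q.1 - 3 / 2) * p.1 + p.2 - 9 * q.2| ≤ 9 * δ} := by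
    apply closure_minimal
    · rintro p ⟨a, s, ha, ha1, hs, hs1, rfl⟩
      obtain ⟨q, hq, hq1⟩ := h a ha ha1 s hs hs1
      simp only [mem_iUnion, mem_ofPred_eq]
      refine ⟨q, hq, ?_⟩
      have e : (3 * q.1 - 3 / 2) * (3 * s) + (9 * (φ a - s * a) + 9 / 2 * s) - 9 * q.2
          = 9 * ((φ a - s * a) - (q.2 - s * q.1)) := by ring
      rw [e, abs_mul, abs_of_pos (by norm_num : (0 : ℝ) < 9)]
      linarith
    · apply S.finite_toSet.isClosed_biUnion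
      intro q _
      apply isClosed_le
      · fun_prop
      · fun_prop
  intro p hp
  have := hsub hp
  simp only [mem_iUnion, mem_ofPred_eq] at this
  obtain ⟨q, hq, hq1⟩ := this
  exact ⟨q, hq, hq1⟩

lemma Araw_null {φ : ℝ → ℝ}
    (h : ∀ ε : ℝ, 0 < ε → ∃ (S : Finset (ℝ × ℝ)) (δ : ℝ), 0 < δ ∧ (S.card : ℝ) * δ ≤ ε ∧
      ∀ a, 0 ≤ a → a < 1 → ∀ s, 1 / 3 ≤ s → s ≤ 2 / 3 →
        ∃ q ∈ S, |(φ a - s * a) - (q.2 - s * q.1)| ≤ δ) :
    volume (closure (Araw φ)) = 0 := by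
  have hmeas : MeasurableSet (closure (Araw φ)) := isClosed_closure.measurableSet
  rw [Measure.volume_eq_prod, Measure.measure_prod_null hmeas]
  filter_upwards with x
  simp only [Pi.zero_apply]
  -- the slice has arbitrarily small measure
  rw [← nonpos_iff_eq_zero]
  apply le_of_forall_pos_le_add
  intro ε hε
  rw [zero_add]
  by_cases hεt : ε = ⊤
  · rw [hεt]; exact le_top
  have hε' : 0 < ε.toReal := ENNReal.toReal_pos hε.ne' hεt
  obtain ⟨S, δ, hδ, hSδ, hcov⟩ := h (ε.toReal / 18) (by positivity)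
  have hcl := Araw_cover hcov
  have hsub : Prod.mk x ⁻¹' closure (Araw φ) ⊆
      ⋃ q ∈ S, Icc (9 * q.2 - (3 * q.1 - 3 / 2) * x - 9 * δ)
        (9 * q.2 - (3 * q.1 - 3 / 2) * x + 9 * δ) := by
    intro y hy
    obtain ⟨q, hq, hq1⟩ := hcl (x, y) hy
    have hq2 := abs_le.1 hq1
    simp only [mem_iUnion, mem_Icc]
    simp only at hq2
    exact ⟨q, hq, by linarith [hq2.1], by linarith [hq2.2]⟩
  calc volume (Prod.mk x ⁻¹' closure (Araw φ))
      ≤ volume (⋃ q ∈ S, Icc (9 * q.2 - (3 * q.1 - 3 / 2) * x - 9 * δ)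
        (9 * q.2 - (3 * q.1 - 3 / 2) * x + 9 * δ)) := measure_mono hsub
    _ ≤ ∑ q ∈ S, volume (Icc (9 * q.2 - (3 * q.1 - 3 / 2) * x - 9 * δ)
        (9 * q.2 - (3 * q.1 - 3 / 2) * x + 9 * δ)) := measure_biUnion_finset_le _ _
    _ = ∑ q ∈ S, ENNReal.ofReal (18 * δ) := by
        apply Finset.sum_congr rfl
        intro q _
        rw [Real.volume_Icc]
        congr 1; ring
    _ = ENNReal.ofReal ((S.card : ℝ) * (18 * δ)) := by
        rw [Finset.sum_const, nsmul_eq_mul, ← ENNReal.ofReal_natCast,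
          ← ENNReal.ofReal_mul (Nat.cast_nonneg _)]
    _ ≤ ENNReal.ofReal ε.toReal := by
        apply ENNReal.ofReal_le_ofReal
        linarith
    _ = ε := ENNReal.ofReal_toReal hεt

lemma Araw_bounded {φ : ℝ → ℝ} (hφ : ∀ a, 0 ≤ φ a ∧ φ a ≤ 2) :
    closure (Araw φ) ⊆ Icc ((-9 : ℝ), (-9 : ℝ)) ((30 : ℝ), (30 : ℝ)) := by
  apply closure_minimal _ isClosed_Icc
  rintro p ⟨a, s, ha, ha1, hs, hs1, rfl⟩
  have h1 := hφ a
  have h2 : 0 ≤ s * a := by nlinarith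
  have h3 : s * a ≤ 1 := by nlinarith
  rw [mem_Icc, Prod.mk_le_mk, Prod.mk_le_mk]
  refine ⟨⟨by linarith, by linarith⟩, ⟨by linarith, by linarith⟩⟩

lemma KS_isCompact {φ : ℝ → ℝ} (hφ : ∀ a, 0 ≤ φ a ∧ φ a ≤ 2) : IsCompact (KS φ) := by
  apply Metric.isCompact_of_isClosed_isBounded
  · apply IsClosed.union
    · exact isClosed_closure.preimage coords_continuous
    · exact isClosed_closure.preimage (continuous_swap.comp coords_continuous)
  · rw [Metric.isBounded_iff_subset_closedBall 0]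
    refine ⟨100, ?_⟩
    intro x hx
    rw [mem_closedBall_zero_iff]
    have hb := Araw_bounded hφ
    have key : (-9 ≤ x 0 ∧ x 0 ≤ 30) ∧ (-9 ≤ x 1 ∧ x 1 ≤ 30) := by
      rcases hx with hx | hx
      · have := hb hx
        simp only [coords, mem_Icc, Prod.mk_le_mk] at this
        exact ⟨⟨this.1.1, this.2.1⟩, ⟨this.1.2, this.2.2⟩⟩
      · have := hb hx
        simp only [coords, Function.comp_apply, Prod.swap_prod_mk, mem_Icc, Prod.mk_le_mk] at this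
        exact ⟨⟨this.1.2, this.2.2⟩, ⟨this.1.1, this.2.1⟩⟩
    have h1 := norm_sq_eq x
    have h2 : ‖x‖ ^ 2 ≤ 100 ^ 2 := by
      rw [h1]; nlinarith [key.1.1, key.1.2, key.2.1, key.2.2]
    exact le_of_sq_le_sq h2 (by norm_num)

lemma KS_null {φ : ℝ → ℝ} (h0 : volume (closure (Araw φ)) = 0) : volume (KS φ) = 0 := by
  have hmeas : NullMeasurableSet (closure (Araw φ)) volume :=
    isClosed_closure.measurableSet.nullMeasurableSet
  have h1 : volume (coords ⁻¹' (closure (Araw φ))) = 0 := by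
    rw [coords_measurePreserving.measure_preimage hmeas, h0]
  have h2 : volume ((Prod.swap ∘ coords) ⁻¹' (closure (Araw φ))) = 0 := by
    have hsw : MeasurePreserving (Prod.swap : ℝ × ℝ → ℝ × ℝ) volume volume :=
      Measure.measurePreserving_swap
    rw [(hsw.comp coords_measurePreserving).measure_preimage hmeas, h0]
  exact measure_union_null h1 h2

lemma segment_aux {φ : ℝ → ℝ} (u v : ℝ) (huv : u ^ 2 + v ^ 2 = 1) (hle : |v| ≤ |u|) :
    ∃ X Y : ℝ, ∀ t ∈ Icc (0 : ℝ) 1, (X + t * u, Y + t * v) ∈ Araw φ := by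
  have hu0 : u ≠ 0 := by
    intro h
    rw [h, abs_zero] at hle
    have : v = 0 := abs_eq_zero.1 (le_antisymm hle (abs_nonneg v))
    rw [h, this] at huv
    norm_num at huv
  have hu1 : u ≤ 1 := by nlinarith [sq_nonneg v]
  have hu2 : -1 ≤ u := by nlinarith [sq_nonneg v]
  set κ := v / u with hκ
  have hκu : κ * u = v := by rw [hκ]; field_simp
  have hκ1 : |κ| ≤ 1 := by
    rw [hκ, abs_div]
    exact div_le_one_of_le₀ hle (abs_nonneg u)
  have hκ2 := abs_le.1 hκ1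
  set a := (3 / 2 - κ) / 3 with ha
  have ha0 : 0 ≤ a := by rw [ha]; linarith [hκ2.2]
  have ha1 : a < 1 := by rw [ha]; linarith [hκ2.1]
  have haκ : κ = 3 / 2 - 3 * a := by rw [ha]; ring
  obtain ⟨X, hX⟩ : ∃ X : ℝ, ∀ t ∈ Icc (0 : ℝ) 1, 1 ≤ X + t * u ∧ X + t * u ≤ 2 := by
    by_cases hpos : 0 ≤ u
    · refine ⟨1, fun t ht => ?_⟩
      have h1 : 0 ≤ t * u := mul_nonneg ht.1 hpos
      have h2 : t * u ≤ 1 := by nlinarith [ht.1, ht.2]
      exact ⟨by linarith, by linarith⟩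
    · push Not at hpos
      refine ⟨2, fun t ht => ?_⟩
      have h1 : t * u ≤ 0 := by nlinarith [ht.1]
      have h2 : -1 ≤ t * u := by nlinarith [ht.1, ht.2]
      exact ⟨by linarith, by linarith⟩
  refine ⟨X, κ * X + 9 * φ a, fun t ht => ⟨a, (X + t * u) / 3, ha0, ha1, ?_, ?_, ?_⟩⟩
  · linarith [(hX t ht).1]
  · linarith [(hX t ht).2]
  · rw [Prod.mk.injEq]
    constructor
    · ring
    · rw [← hκu, haκ]; ring

lemma KS_segments (φ : ℝ → ℝ) (e : Plane) (he : ‖e‖ = 1) :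
    ∃ p : Plane, segment ℝ p (p + e) ⊆ KS φ := by
  have h1 : e 0 ^ 2 + e 1 ^ 2 = 1 := by rw [← norm_sq_eq, he]; norm_num
  rcases le_total |e 1| |e 0| with hle | hle
  · obtain ⟨X, Y, hXY⟩ := segment_aux (φ := φ) (e 0) (e 1) h1 hle
    refine ⟨!₂[X, Y], ?_⟩
    rw [segment_eq_image']
    rintro x ⟨t, ht, rfl⟩
    left
    apply subset_closure
    have := hXY t ht
    simpa [coords] using this
  · obtain ⟨X, Y, hXY⟩ := segment_aux (φ := φ) (e 1) (e 0) (by linarith) hle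
    refine ⟨!₂[Y, X], ?_⟩
    rw [segment_eq_image']
    rintro x ⟨t, ht, rfl⟩
    right
    apply subset_closure
    have := hXY t ht
    simpa [coords] using this

lemma KS_propertyS {φ : ℝ → ℝ}
    (h : ∀ ε : ℝ, 0 < ε → ∃ (S : Finset (ℝ × ℝ)) (δ : ℝ), 0 < δ ∧ (S.card : ℝ) * δ ≤ ε ∧
      ∀ a, 0 ≤ a → a < 1 → ∀ s, 1 / 3 ≤ s → s ≤ 2 / 3 →
        ∃ q ∈ S, |(φ a - s * a) - (q.2 - s * q.1)| ≤ δ) :
    PropertyS (KS φ) := by
  intro ε hε
  obtain ⟨S, δ, hδ, hSδ, hcov⟩ := h (ε / 72) (by positivity)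
  have hcl := Araw_cover hcov
  -- unnormalised normals
  obtain ⟨vl, hvl⟩ : ∃ vl : ℝ → Plane, vl = fun k => !₂[k, 1] := ⟨_, rfl⟩
  obtain ⟨vr, hvr⟩ : ∃ vr : ℝ → Plane, vr = fun k => !₂[1, k] := ⟨_, rfl⟩
  have hvl1 : ∀ k, 1 ≤ ‖vl k‖ := by
    intro k
    have h1 : 1 ^ 2 ≤ ‖vl k‖ ^ 2 := by
      rw [norm_sq_eq, hvl]
      simp
      positivity
    exact le_of_sq_le_sq h1 (norm_nonneg _)
  have hvr1 : ∀ k, 1 ≤ ‖vr k‖ := by
    intro k
    have h1 : 1 ^ 2 ≤ ‖vr k‖ ^ 2 := by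
      rw [norm_sq_eq, hvr]
      simp
      positivity
    exact le_of_sq_le_sq h1 (norm_nonneg _)
  have hvl2 : ∀ k x, inner ℝ (vl k) x = k * x 0 + x 1 := by
    intro k x
    rw [inner_eq, hvl]
    simp
  have hvr2 : ∀ k x, inner ℝ (vr k) x = k * x 1 + x 0 := by
    intro k x
    rw [inner_eq, hvr]
    simp
    ring
  let v : S ⊕ S → Plane := Sum.elim (fun q => vl (3 * q.1.1 - 3 / 2))
    (fun q => vr (3 * q.1.1 - 3 / 2))
  let b : S ⊕ S → ℝ := Sum.elim (fun q => 9 * q.1.2) (fun q => 9 * q.1.2)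
  have hv : ∀ i, 1 ≤ ‖v i‖ := by
    intro i
    rcases i with q | q
    · exact hvl1 _
    · exact hvr1 _
  refine ⟨S ⊕ S, inferInstance, fun i => ‖v i‖⁻¹ • v i, fun i => (b i - 9 * δ) / ‖v i‖,
    fun _ => 2 * (9 * δ), fun i => norm_normalize _ (hv i), fun _ => by positivity, ?_, ?_, ?_⟩
  · intro x hx
    rw [mem_iUnion]
    rcases hx with hx | hx
    · obtain ⟨q, hq, hq1⟩ := hcl _ hx
      refine ⟨Sum.inl ⟨q, hq⟩, ?_⟩
      exact mem_strip_of_abs (vl (3 * q.1 - 3 / 2)) (hvl1 _) (9 * q.2) (9 * δ) (by positivity) x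
        (by rw [hvl2]; exact hq1)
    · obtain ⟨q, hq, hq1⟩ := hcl _ hx
      refine ⟨Sum.inr ⟨q, hq⟩, ?_⟩
      exact mem_strip_of_abs (vr (3 * q.1 - 3 / 2)) (hvr1 _) (9 * q.2) (9 * δ) (by positivity) x
        (by rw [hvr2]; exact hq1)
  · exact (hasSum_fintype _).summable
  · rw [tsum_fintype, Finset.sum_const, Finset.card_univ, Fintype.card_sum, nsmul_eq_mul]
    simp only [Fintype.card_coe]
    push_cast
    have : ((S.card : ℝ) + S.card) * (2 * (9 * δ)) = 36 * (S.card * δ) := by ring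
    rw [this]
    linarith

end Pool.Agent.Lib.MP_6b55e5_an
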