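import Mathlib

/-!
# A Cantor set of large dimension and averages over it
-/

namespace Pool.Agent.Lib.MP_6b55e5_an

open Finset MeasureTheory

/-- approximating sets: base 16 expansions using only the digits `0, …, 14` -/
def U : ℕ → Set ℝ
  | 0 => Set.Icc 0 1
  | n + 1 => ⋃ d ∈ range 15, (fun c : ℝ => ((d : ℝ) + c) / 16) '' U n

/-- the Cantor set -/
def Cant : Set ℝ := ⋂ n, U n

lemma U_closed (n : ℕ) : IsCompact (U n) := by
  induction n with
  | zero => exact isCompact_Icc
  | succ n ih =>
    rw [U]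
    apply (range 15).isCompact_biUnion
    intro d _
    exact ih.image (by fun_prop)

lemma Cant_closed : IsClosed Cant := isClosed_iInter fun n => (U_closed n).isClosed

lemma Cant_subset : Cant ⊆ Set.Icc 0 1 := fun _ hc => (Set.mem_iInter.1 hc 0)

lemma zero_mem_U (n : ℕ) : (0 : ℝ) ∈ U n := by
  induction n with
  | zero => simp [U]
  | succ n ih =>
    rw [U]
    simp only [Set.mem_iUnion]
    exact ⟨0, by simp, 0, ih, by simp⟩

lemma zero_mem_Cant : (0 : ℝ) ∈ Cant := Set.mem_iInter.2 zero_mem_U

lemma step_mem_Cant {c : ℝ} (hc : c ∈ Cant) {d : ℕ} (hd : d ∈ range 15) :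
    ((d : ℝ) + c) / 16 ∈ Cant := by
  apply Set.mem_iInter.2
  intro n
  cases n with
  | zero =>
    have h := Cant_subset hc
    have hd' : (d : ℝ) ≤ 14 := by
      have := mem_range.1 hd
      exact_mod_cast (by omega : d ≤ 14)
    have hd0 : (0 : ℝ) ≤ d := Nat.cast_nonneg d
    show ((d : ℝ) + c) / 16 ∈ Set.Icc (0 : ℝ) 1
    exact ⟨by have := h.1; positivity, by have := h.2; linarith⟩
  | succ n =>
    rw [U]
    simp only [Set.mem_iUnion]
    exact ⟨d, hd, c, Set.mem_iInter.1 hc n, rfl⟩

lemma volume_U (n : ℕ) : volume (U n) ≤ ENNReal.ofReal ((15 / 16) ^ n) := by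
  induction n with
  | zero => simp [U]
  | succ n ih =>
    rw [U]
    have h1 : ∀ d ∈ range 15, volume ((fun c : ℝ => ((d : ℝ) + c) / 16) '' U n)
        ≤ ENNReal.ofReal (1 / 16) * ENNReal.ofReal ((15 / 16) ^ n) := by
      intro d _
      have e : (fun c : ℝ => ((d : ℝ) + c) / 16) '' U n
          = (fun c => (d : ℝ) / 16 + c) '' ((fun c : ℝ => (1 / 16 : ℝ) • c) '' U n) := by
        rw [Set.image_image]
        apply Set.image_congr
        intro c _
        simp only [smul_eq_mul]
        ring
      rw [e, Set.image_add_left, measure_preimage_add, Set.image_smul, Measure.addHaar_smul]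
      simp only [Module.finrank_self, pow_one]
      rw [abs_of_pos (by norm_num : (0 : ℝ) < 1 / 16)]
      gcongr
    calc volume (⋃ d ∈ range 15, (fun c : ℝ => ((d : ℝ) + c) / 16) '' U n)
        ≤ ∑ d ∈ range 15, volume ((fun c : ℝ => ((d : ℝ) + c) / 16) '' U n) :=
          measure_biUnion_finset_le _ _
      _ ≤ ∑ d ∈ range 15, ENNReal.ofReal (1 / 16) * ENNReal.ofReal ((15 / 16) ^ n) :=
          sum_le_sum h1
      _ = ENNReal.ofReal ((15 / 16) ^ (n + 1)) := by
          rw [sum_const, card_range, nsmul_eq_mul, ← ENNReal.ofReal_mul (by norm_num),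
            ← ENNReal.ofReal_natCast, ← ENNReal.ofReal_mul (by norm_num)]
          congr 1
          rw [pow_succ]; push_cast; ring

lemma volume_Cant : volume Cant = 0 := by
  have h : ∀ n, volume Cant ≤ ENNReal.ofReal ((15 / 16) ^ n) := fun n =>
    (measure_mono (Set.iInter_subset _ n)).trans (volume_U n)
  have h2 : Filter.Tendsto (fun n : ℕ => ENNReal.ofReal ((15 / 16 : ℝ) ^ n)) Filter.atTop
      (nhds 0) := by
    have := ENNReal.tendsto_ofReal
      (tendsto_pow_atTop_nhds_zero_of_lt_one (r := (15 / 16 : ℝ)) (by norm_num) (by norm_num))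
    simpa using this
  exact le_antisymm (ge_of_tendsto' h2 h) bot_le

/-- average over the `15 ^ n` left endpoints of generation `n` -/
noncomputable def avg : ℕ → (ℝ → ℝ) → ℝ
  | 0, f => f 0
  | n + 1, f => (1 / 15) * ∑ d ∈ range 15, avg n (fun c => f (((d : ℝ) + c) / 16))

lemma avg_mono (n : ℕ) {f g : ℝ → ℝ} (h : ∀ c ∈ Cant, f c ≤ g c) : avg n f ≤ avg n g := by
  induction n generalizing f g with
  | zero => exact h 0 zero_mem_Cant
  | succ n ih =>
    rw [avg, avg]
    apply mul_le_mul_of_nonneg_left _ (by norm_num)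
    apply sum_le_sum
    intro d hd
    apply ih
    intro c hc
    exact h _ (step_mem_Cant hc hd)

lemma avg_const (n : ℕ) (k : ℝ) : avg n (fun _ => k) = k := by
  induction n with
  | zero => rfl
  | succ n ih =>
    rw [avg]
    simp only [ih, sum_const, card_range, nsmul_eq_mul]
    push_cast; ring

lemma avg_mul (n : ℕ) (k : ℝ) (f : ℝ → ℝ) : avg n (fun c => k * f c) = k * avg n f := by
  induction n generalizing f with
  | zero => rfl
  | succ n ih =>
    rw [avg, avg]
    simp only [ih]
    rw [← mul_sum]; ring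

lemma avg_sum {ι : Type*} (n : ℕ) (t : Finset ι) (f : ι → ℝ → ℝ) :
    avg n (fun c => ∑ i ∈ t, f i c) = ∑ i ∈ t, avg n (f i) := by
  induction n generalizing f with
  | zero => rfl
  | succ n ih =>
    rw [avg]
    simp only [ih]
    rw [sum_comm, mul_sum]
    apply sum_congr rfl
    intro i _
    rw [avg]

/-- the potential kernel -/
noncomputable def ker (w h : ℝ) : ℝ := if h < -w then 0 else 1 / √(max h w)

lemma ker_scale (w h : ℝ) (hw : 0 < w) : ker w (h / 16) = 4 * ker (16 * w) h := by
  unfold ker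
  by_cases h1 : h / 16 < -w
  · have h2 : h < -(16 * w) := by linarith
    simp [h1, h2]
  · have h2 : ¬ h < -(16 * w) := by intro h3; apply h1; linarith
    simp only [h1, h2, if_false]
    have h3 : max h (16 * w) = 16 * max (h / 16) w := by
      rw [mul_max_of_nonneg _ _ (by norm_num : (0 : ℝ) ≤ 16)]
      congr 1; ring
    rw [h3, Real.sqrt_mul (by norm_num)]
    have h4 : √(16 : ℝ) = 4 := by
      rw [show (16 : ℝ) = 4 ^ 2 by norm_num]
      exact Real.sqrt_sq (by norm_num)
    rw [h4]
    have h5 : 0 < √(max (h / 16) w) := Real.sqrt_pos.2 (lt_max_of_lt_right hw)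
    field_simp

lemma ker_nonneg (w h : ℝ) : 0 ≤ ker w h := by
  unfold ker; split_ifs <;> positivity

lemma ker_le (w h k : ℝ) (hw : 0 < w) (hk : 0 < k) (hk2 : 1 ≤ k ^ 2 * max h w) :
    ker w h ≤ k := by
  unfold ker
  split_ifs
  · exact hk.le
  · have h5 : 0 < max h w := lt_max_of_lt_right hw
    rw [div_le_iff₀ (Real.sqrt_pos.2 h5)]
    have h6 : √1 ≤ √(k ^ 2 * max h w) := Real.sqrt_le_sqrt hk2
    rw [Real.sqrt_one, Real.sqrt_mul (by positivity), Real.sqrt_sq hk.le] at h6
    exact h6

lemma near_card (x w : ℝ) (hw : w < 1) :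
    ((range 15).filter (fun d : ℕ => x - 2 < d ∧ (d : ℝ) ≤ x + w)).card ≤ 3 := by
  have h1 : (((range 15).filter (fun d : ℕ => x - 2 < d ∧ (d : ℝ) ≤ x + w)).map
      Nat.castEmbedding : Finset ℤ) ⊆ Ioc ⌊x - 2⌋ ⌊x + w⌋ := by
    intro z hz
    simp only [mem_map, mem_filter, Nat.castEmbedding_apply] at hz
    obtain ⟨d, ⟨-, hd1, hd2⟩, rfl⟩ := hz
    rw [mem_Ioc]
    constructor
    · rw [Int.floor_lt]; exact_mod_cast hd1
    · rw [Int.le_floor]; exact_mod_cast hd2
  have h2 := card_le_card h1
  rw [card_map, Int.card_Ioc] at h2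
  have h3 : ⌊x + w⌋ - ⌊x - 2⌋ < 4 := by
    have h4 : ((⌊x + w⌋ - ⌊x - 2⌋ : ℤ) : ℝ) < 4 := by
      push_cast
      have := Int.floor_le (x + w)
      have := Int.lt_floor_add_one (x - 2)
      linarith
    exact_mod_cast h4
  omega

/-- The potentials of the Cantor measure are bounded. -/
lemma avg_ker (n : ℕ) (D w : ℝ) (hw : (1 / 16 : ℝ) ^ n ≤ w) :
    avg n (fun c => ker w (D - c)) ≤ 16 := by
  induction n generalizing D w with
  | zero =>
    simp only [pow_zero] at hw
    have h1 := avg_mono 0 (f := fun c => ker w (D - c)) (g := fun _ => 1) (fun c _ =>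
      ker_le w _ 1 (by linarith) (by norm_num) (by
        have : w ≤ max (D - c) w := le_max_right _ _
        linarith))
    rw [avg_const] at h1
    linarith
  | succ n ih =>
    have hw0 : 0 < w := lt_of_lt_of_le (by positivity) hw
    by_cases hw1 : 1 / 16 ≤ w
    · have h1 := avg_mono (n + 1) (f := fun c => ker w (D - c)) (g := fun _ => 4) (fun c _ =>
        ker_le w _ 4 hw0 (by norm_num) (by
          have : w ≤ max (D - c) w := le_max_right _ _
          linarith))
      rw [avg_const] at h1
      linarith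
    · push Not at hw1
      have hw' : (1 / 16 : ℝ) ^ n ≤ 16 * w := by
        rw [pow_succ] at hw; linarith
      rw [avg]
      have h1 : ∀ d ∈ range 15, avg n (fun c => ker w (D - ((d : ℝ) + c) / 16))
          ≤ 4 * (if (16 * D - 2 < d ∧ (d : ℝ) ≤ 16 * D + 16 * w) then 16 else 1) := by
        intro d _
        have e : (fun c => ker w (D - ((d : ℝ) + c) / 16))
            = fun c => 4 * ker (16 * w) ((16 * D - d) - c) := by
          funext c
          rw [← ker_scale w _ hw0]
          congr 1; ring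
        rw [e, avg_mul]
        apply mul_le_mul_of_nonneg_left _ (by norm_num)
        split_ifs with hnear
        · exact ih (16 * D - d) (16 * w) hw'
        · rw [← avg_const n 1]
          apply avg_mono
          intro c hc
          have hc' := Cant_subset hc
          by_cases h2 : 16 * D - 2 < d
          · have h3 : ¬ (d : ℝ) ≤ 16 * D + 16 * w := fun h => hnear ⟨h2, h⟩
            push Not at h3
            have h4 : 16 * D - d - c < -(16 * w) := by linarith [hc'.1]
            simp [ker, h4]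
          · push Not at h2
            apply ker_le _ _ _ (by positivity) (by norm_num)
            have h3 : 1 ≤ 16 * D - d - c := by linarith [hc'.2]
            have h4 : 16 * D - d - c ≤ max (16 * D - d - c) (16 * w) := le_max_left _ _
            linarith
      have h2 : ∑ d ∈ range 15, (if (16 * D - 2 < (d : ℝ) ∧ (d : ℝ) ≤ 16 * D + 16 * w)
          then (16 : ℝ) else 1) ≤ 60 := by
        have h3 : ∀ d ∈ range 15, (if (16 * D - 2 < (d : ℝ) ∧ (d : ℝ) ≤ 16 * D + 16 * w)
            then (16 : ℝ) else 1) = 1 + (if (16 * D - 2 < (d : ℝ) ∧ (d : ℝ) ≤ 16 * D + 16 * w)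
            then (15 : ℝ) else 0) := by
          intro d _; split_ifs <;> norm_num
        rw [sum_congr rfl h3, sum_add_distrib, sum_const, card_range, ← sum_filter, sum_const,
          nsmul_eq_mul, nsmul_eq_mul]
        have h4 := near_card (16 * D) (16 * w) (by linarith)
        have h5 : ((((range 15).filter (fun d : ℕ => 16 * D - 2 < d ∧
          (d : ℝ) ≤ 16 * D + 16 * w)).card : ℕ) : ℝ) ≤ 3 := by exact_mod_cast h4
        push_cast
        linarith
      calc (1 / 15 : ℝ) * ∑ d ∈ range 15, avg n (fun c => ker w (D - ((d : ℝ) + c) / 16))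
          ≤ (1 / 15 : ℝ) * ∑ d ∈ range 15, 4 * (if (16 * D - 2 < (d : ℝ) ∧
            (d : ℝ) ≤ 16 * D + 16 * w) then (16 : ℝ) else 1) := by
            apply mul_le_mul_of_nonneg_left (sum_le_sum h1) (by norm_num)
        _ = (4 / 15 : ℝ) * ∑ d ∈ range 15, (if (16 * D - 2 < (d : ℝ) ∧
            (d : ℝ) ≤ 16 * D + 16 * w) then (16 : ℝ) else 1) := by
            rw [← mul_sum]; ring
        _ ≤ 16 := by linarith

end Pool.Agent.Lib.MP_6b55e5_an
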