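import Mathlib
import Pool.Agent.Lib.MP_6b55e5_an.Cantor

/-!
# How long a parabola stays in a strip
-/

namespace Pool.Agent.Lib.MP_6b55e5_an

open MeasureTheory Set

lemma quad_centered (h w : ℝ) (hw : 0 < w) :
    volume {z : ℝ | |z ^ 2 - h| ≤ w} ≤ ENNReal.ofReal (6 * w * ker w h) := by
  unfold ker
  by_cases h1 : h < -w
  · have : {z : ℝ | |z ^ 2 - h| ≤ w} = ∅ := by
      ext z
      simp only [mem_ofPred_eq, mem_empty_iff_false, iff_false, not_le]
      have := sq_nonneg z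
      rw [abs_of_nonneg (by linarith)]
      linarith
    simp [this]
  · simp only [h1, if_false]
    push Not at h1
    by_cases h2 : h ≤ 2 * w
    · have hsub : {z : ℝ | |z ^ 2 - h| ≤ w} ⊆ Icc (-√(3 * w)) (√(3 * w)) := by
        intro z hz
        simp only [mem_ofPred_eq] at hz
        have hz' := (abs_le.1 hz).2
        rw [mem_Icc, ← abs_le]
        apply Real.abs_le_sqrt
        linarith
      refine (measure_mono hsub).trans ?_
      rw [Real.volume_Icc]
      apply ENNReal.ofReal_le_ofReal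
      have h3 : max h w ≤ 2 * w := max_le h2 (by linarith)
      have h4 : 0 < max h w := lt_max_of_lt_right hw
      have h5 : √(max h w) ≤ √(2 * w) := Real.sqrt_le_sqrt h3
      have h6 : 0 < √(max h w) := Real.sqrt_pos.2 h4
      have h7 : √(3 * w) * √(2 * w) ≤ 3 * w := by
        rw [← Real.sqrt_mul (by positivity)]
        have : √((3 * w) ^ 2) = 3 * w := Real.sqrt_sq (by positivity)
        rw [← this]
        apply Real.sqrt_le_sqrt
        nlinarith
      have h8 : √(3 * w) * √(max h w) ≤ 3 * w :=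
        le_trans (mul_le_mul_of_nonneg_left h5 (Real.sqrt_nonneg _)) h7
      rw [mul_one_div, le_div_iff₀ h6]
      nlinarith
    · push Not at h2
      have hm : max h w = h := max_eq_left (by linarith)
      rw [hm]
      have hsub : {z : ℝ | |z ^ 2 - h| ≤ w} ⊆
          Icc (-√(h + w)) (-√(h - w)) ∪ Icc (√(h - w)) (√(h + w)) := by
        intro z hz
        simp only [mem_ofPred_eq] at hz
        have hz' := abs_le.1 hz
        have h3 : |z| ≤ √(h + w) := Real.abs_le_sqrt (by linarith)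
        have h4 : √(h - w) ≤ |z| := by
          rw [← Real.sqrt_sq_eq_abs]
          apply Real.sqrt_le_sqrt
          linarith
        by_cases hz0 : 0 ≤ z
        · right
          rw [abs_of_nonneg hz0] at h3 h4
          exact ⟨h4, h3⟩
        · left
          push Not at hz0
          rw [abs_of_neg hz0] at h3 h4
          exact ⟨by linarith, by linarith⟩
      refine (measure_mono hsub).trans ((measure_union_le _ _).trans ?_)
      rw [Real.volume_Icc, Real.volume_Icc, ← ENNReal.ofReal_add]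
      · apply ENNReal.ofReal_le_ofReal
        have h5 : 0 < √h := Real.sqrt_pos.2 (by linarith)
        have h6 : √h ≤ √(h + w) := Real.sqrt_le_sqrt (by linarith)
        have h7 : (√(h + w) - √(h - w)) * (√(h + w) + √(h - w)) = 2 * w := by
          have e1 : √(h + w) ^ 2 = h + w := Real.sq_sqrt (by linarith)
          have e2 : √(h - w) ^ 2 = h - w := Real.sq_sqrt (by linarith)
          nlinarith
        have h8 : 0 ≤ √(h + w) - √(h - w) := by
          have : √(h - w) ≤ √(h + w) := Real.sqrt_le_sqrt (by linarith)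
          linarith
        have h9 : (√(h + w) - √(h - w)) * √h ≤ 2 * w := by
          rw [← h7]
          apply mul_le_mul_of_nonneg_left _ h8
          have := Real.sqrt_nonneg (h - w)
          linarith
        rw [mul_one_div, le_div_iff₀ h5]
        nlinarith
      · have : √(h - w) ≤ √(h + w) := Real.sqrt_le_sqrt (by linarith)
        linarith
      · have : √(h - w) ≤ √(h + w) := Real.sqrt_le_sqrt (by linarith)
        linarith

/-- the part of the parabola `y = x² + c` in a strip -/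
def P (n₀ n₁ m w c : ℝ) : Set ℝ := {x | x ∈ Icc (0 : ℝ) 1 ∧ |n₀ * x + n₁ * (x ^ 2 + c) - m| ≤ w}

lemma P_steep (n₀ n₁ m w c : ℝ) (hw : 0 < w) (hn : n₀ ^ 2 + n₁ ^ 2 = 1) (hn1 : |n₁| < 1 / 4) :
    volume (P n₀ n₁ m w c) ≤ ENNReal.ofReal (5 * w) := by
  have hn0 : 9 / 10 ≤ |n₀| := by
    have h1 : |n₁| ^ 2 < (1 / 4) ^ 2 := by
      apply pow_lt_pow_left₀ hn1 (abs_nonneg _) (by norm_num)
    rw [sq_abs] at h1
    have h2 : (9 / 10 : ℝ) ^ 2 ≤ |n₀| ^ 2 := by rw [sq_abs]; nlinarith
    exact le_of_sq_le_sq h2 (abs_nonneg _)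
  refine (Real.volume_le_diam _).trans ?_
  apply Metric.ediam_le
  intro x hx y hy
  rw [edist_dist]
  apply ENNReal.ofReal_le_ofReal
  rw [Real.dist_eq]
  obtain ⟨hx1, hx2⟩ := hx
  obtain ⟨hy1, hy2⟩ := hy
  have e : (n₀ * x + n₁ * (x ^ 2 + c) - m) - (n₀ * y + n₁ * (y ^ 2 + c) - m)
      = (x - y) * (n₀ + n₁ * (x + y)) := by ring
  have h3 : |(x - y) * (n₀ + n₁ * (x + y))| ≤ 2 * w := by
    rw [← e]
    calc _ ≤ |n₀ * x + n₁ * (x ^ 2 + c) - m| + |n₀ * y + n₁ * (y ^ 2 + c) - m| := abs_sub _ _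
      _ ≤ 2 * w := by linarith
  rw [abs_mul] at h3
  have h4 : 2 / 5 ≤ |n₀ + n₁ * (x + y)| := by
    have h5 : |n₀| - |n₁ * (x + y)| ≤ |n₀ + n₁ * (x + y)| := by
      have := abs_sub_abs_le_abs_sub n₀ (-(n₁ * (x + y)))
      rw [abs_neg, sub_neg_eq_add] at this
      exact this
    have h6 : |n₁ * (x + y)| ≤ 1 / 2 := by
      rw [abs_mul, abs_of_nonneg (by linarith [hx1.1, hy1.1] : 0 ≤ x + y)]
      have h7 : x + y ≤ 2 := by linarith [hx1.2, hy1.2]
      have h8 : 0 ≤ x + y := by linarith [hx1.1, hy1.1]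
      nlinarith [abs_nonneg n₁]
    linarith
  have h9 : 0 ≤ |x - y| := abs_nonneg _
  nlinarith

lemma P_flat (n₀ n₁ m w c : ℝ) (hw : 0 < w) (hn1 : 1 / 4 ≤ |n₁|) :
    volume (P n₀ n₁ m w c) ≤
      ENNReal.ofReal (24 * w * ker (4 * w) ((m / n₁ + (n₀ / n₁) ^ 2 / 4) - c)) := by
  have hn0 : n₁ ≠ 0 := by intro h; rw [h] at hn1; norm_num at hn1
  have hsub : P n₀ n₁ m w c ⊆ (fun x => n₀ / n₁ / 2 + x) ⁻¹'
      {z : ℝ | |z ^ 2 - ((m / n₁ + (n₀ / n₁) ^ 2 / 4) - c)| ≤ 4 * w} := by
    intro x hx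
    obtain ⟨-, hx2⟩ := hx
    simp only [mem_preimage, mem_ofPred_eq]
    have e : (n₀ / n₁ / 2 + x) ^ 2 - ((m / n₁ + (n₀ / n₁) ^ 2 / 4) - c)
        = (n₀ * x + n₁ * (x ^ 2 + c) - m) / n₁ := by
      field_simp
      ring
    rw [e, abs_div, div_le_iff₀ (by linarith)]
    nlinarith
  refine (measure_mono hsub).trans ?_
  rw [measure_preimage_add]
  refine (quad_centered _ _ (by positivity)).trans (le_of_eq ?_)
  congr 1; ring

lemma P_volume_ne_top (n₀ n₁ m w c : ℝ) : volume (P n₀ n₁ m w c) ≠ ⊤ := by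
  have : P n₀ n₁ m w c ⊆ Icc 0 1 := fun x hx => hx.1
  exact ne_top_of_le_ne_top (by simp) (measure_mono this)

/-- averaged estimate -/
lemma avg_P (N : ℕ) (n₀ n₁ m w : ℝ) (hn : n₀ ^ 2 + n₁ ^ 2 = 1) (hwN : (1 / 16 : ℝ) ^ N ≤ w) :
    avg N (fun c => (volume (P n₀ n₁ m w c)).toReal) ≤ 384 * w := by
  have hw : 0 < w := lt_of_lt_of_le (by positivity) hwN
  by_cases hn1 : |n₁| < 1 / 4
  · have h1 : avg N (fun c => (volume (P n₀ n₁ m w c)).toReal) ≤ avg N (fun _ => 5 * w) := by
      apply avg_mono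
      intro c _
      exact ENNReal.toReal_le_of_le_ofReal (by positivity) (P_steep _ _ _ _ _ hw hn hn1)
    rw [avg_const] at h1
    linarith
  · push Not at hn1
    have h1 : avg N (fun c => (volume (P n₀ n₁ m w c)).toReal) ≤
        avg N (fun c => 24 * w * ker (4 * w) ((m / n₁ + (n₀ / n₁) ^ 2 / 4) - c)) := by
      apply avg_mono
      intro c _
      exact ENNReal.toReal_le_of_le_ofReal (mul_nonneg (by positivity) (ker_nonneg _ _))
        (P_flat _ _ _ _ _ hw hn1)
    rw [avg_mul] at h1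
    have h2 := avg_ker N (m / n₁ + (n₀ / n₁) ^ 2 / 4) (4 * w) (by linarith)
    have h3 : 24 * w * avg N (fun c => ker (4 * w) ((m / n₁ + (n₀ / n₁) ^ 2 / 4) - c))
        ≤ 24 * w * 16 := mul_le_mul_of_nonneg_left h2 (by positivity)
    linarith

end Pool.Agent.Lib.MP_6b55e5_an
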