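import Mathlib
import Pool.Agent.Lib.MP_6b55e5_an.Plane
import Pool.Agent.Lib.MP_6b55e5_an.Quad

/-!
# A compact null set without property (S)
-/

namespace Pool.Agent.Lib.MP_6b55e5_an

open MeasureTheory Set

/-- union of the parabola arcs `y = x² + c`, `0 ≤ x ≤ 1`, `c` in the Cantor set -/
def NR : Set (ℝ × ℝ) := {q | q.1 ∈ Icc (0 : ℝ) 1 ∧ q.2 - q.1 ^ 2 ∈ Cant}

/-- the same set in the plane -/
def NS : Set Plane := coords ⁻¹' NR

lemma NR_closed : IsClosed NR := by
  apply IsClosed.inter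
  · exact isClosed_Icc.preimage continuous_fst
  · exact Cant_closed.preimage (f := fun q : ℝ × ℝ => q.2 - q.1 ^ 2) (by fun_prop)

lemma NR_null : volume NR = 0 := by
  rw [Measure.volume_eq_prod, Measure.measure_prod_null NR_closed.measurableSet]
  filter_upwards with x
  simp only [Pi.zero_apply]
  have hsub : Prod.mk x ⁻¹' NR ⊆ (fun y => -x ^ 2 + y) ⁻¹' Cant := by
    intro y hy
    have := hy.2
    simp only at this
    show -x ^ 2 + y ∈ Cant
    convert this using 1
    ring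
  apply measure_mono_null hsub
  rw [measure_preimage_add, volume_Cant]

lemma NS_isCompact : IsCompact NS := by
  apply Metric.isCompact_of_isClosed_isBounded (NR_closed.preimage coords_continuous)
  rw [Metric.isBounded_iff_subset_closedBall 0]
  refine ⟨10, ?_⟩
  rintro x ⟨hx1, hx2⟩
  rw [mem_closedBall_zero_iff]
  have h2 := Cant_subset hx2
  simp only [coords, mem_Icc] at hx1 h2
  have h3 := norm_sq_eq x
  have h4 : ‖x‖ ^ 2 ≤ 10 ^ 2 := by
    rw [h3]
    have h5 : x 1 ≤ 2 := by nlinarith [h2.2, hx1.1, hx1.2]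
    have h6 : 0 ≤ x 1 := by nlinarith [h2.1, sq_nonneg (x 0)]
    nlinarith [hx1.1, hx1.2]
  exact le_of_sq_le_sq h4 (by norm_num)

lemma NS_null : volume NS = 0 := by
  rw [NS, coords_measurePreserving.measure_preimage NR_closed.measurableSet.nullMeasurableSet,
    NR_null]

/-- the enlarged open strip -/
lemma strip_subset_open (n : Plane) (c w : ℝ) (hw : 0 < w) :
    strip n c w ⊆ {x | |inner ℝ n x - (c + w / 2)| < w} := by
  rintro x ⟨h1, h2⟩
  simp only [mem_ofPred_eq]
  rw [abs_lt]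
  constructor <;> linarith

lemma isOpen_ostrip (n : Plane) (m w : ℝ) : IsOpen {x : Plane | |inner ℝ n x - m| < w} := by
  apply isOpen_lt _ continuous_const
  fun_prop

/-- lower bound for finite open strip coverings -/
lemma finite_cover_bound {ι : Type*} (t : Finset ι) (n : ι → Plane) (m w : ι → ℝ)
    (hn : ∀ i ∈ t, ‖n i‖ = 1) (hw : ∀ i ∈ t, 0 < w i)
    (hcov : NS ⊆ ⋃ i ∈ t, {x : Plane | |inner ℝ (n i) x - m i| < w i}) :
    1 ≤ 384 * ∑ i ∈ t, w i := by
  classical
  -- choice of N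
  obtain ⟨N, hN⟩ : ∃ N : ℕ, ∀ i ∈ t, (1 / 16 : ℝ) ^ N ≤ w i := by
    have h1 : ∀ i ∈ t, ∀ᶠ N : ℕ in Filter.atTop, (1 / 16 : ℝ) ^ N ≤ w i := by
      intro i hi
      have h2 := tendsto_pow_atTop_nhds_zero_of_lt_one (r := (1 / 16 : ℝ)) (by norm_num)
        (by norm_num)
      exact (h2.eventually (gt_mem_nhds (hw i hi))).mono (fun N hN => le_of_lt hN)
    have h3 := (Filter.eventually_all_finset t).2 h1
    exact h3.exists
  have hcurve : ∀ c ∈ Cant, (1 : ℝ) ≤ ∑ i ∈ t, (volume (P (n i 0) (n i 1) (m i) (w i) c)).toReal := by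
    intro c hc
    have hsub : Icc (0 : ℝ) 1 ⊆ ⋃ i ∈ t, P (n i 0) (n i 1) (m i) (w i) c := by
      intro x hx
      have hmem : (!₂[x, x ^ 2 + c] : Plane) ∈ NS := by
        refine ⟨by simpa [coords] using hx, ?_⟩
        simpa [coords] using hc
      have h1 := hcov hmem
      simp only [mem_iUnion, mem_ofPred_eq] at h1 ⊢
      obtain ⟨i, hi, hi2⟩ := h1
      refine ⟨i, hi, hx, ?_⟩
      rw [inner_eq] at hi2
      have h2 : |n i 0 * x + n i 1 * (x ^ 2 + c) - m i| < w i := by simpa using hi2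
      exact h2.le
    have h1 : (1 : ENNReal) ≤ ∑ i ∈ t, volume (P (n i 0) (n i 1) (m i) (w i) c) := by
      calc (1 : ENNReal) = volume (Icc (0 : ℝ) 1) := by simp
        _ ≤ volume (⋃ i ∈ t, P (n i 0) (n i 1) (m i) (w i) c) := measure_mono hsub
        _ ≤ _ := measure_biUnion_finset_le _ _
    rw [← ENNReal.toReal_sum (fun i _ => P_volume_ne_top _ _ _ _ _)]
    have h2 : (∑ i ∈ t, volume (P (n i 0) (n i 1) (m i) (w i) c)) ≠ ⊤ :=
      ENNReal.sum_ne_top.2 (fun i _ => P_volume_ne_top _ _ _ _ _)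
    have h3 := ENNReal.toReal_mono h2 h1
    simpa using h3
  have h1 : avg N (fun _ => (1 : ℝ)) ≤
      avg N (fun c => ∑ i ∈ t, (volume (P (n i 0) (n i 1) (m i) (w i) c)).toReal) :=
    avg_mono N hcurve
  rw [avg_const, avg_sum] at h1
  rw [Finset.mul_sum]
  refine h1.trans (Finset.sum_le_sum fun i hi => ?_)
  apply avg_P
  · rw [← norm_sq_eq, hn i hi]; norm_num
  · exact hN i hi

/-- No set containing `NS` has property (S). -/
lemma not_propertyS {E : Set Plane} (hE : NS ⊆ E) : ¬ PropertyS E := by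
  intro h
  obtain ⟨ι, _, n, c, w, hn, hw, hcov, hsum, hlt⟩ := h (1 / 400) (by norm_num)
  have hcov2 : NS ⊆ ⋃ i, {x : Plane | |inner ℝ (n i) x - (c i + w i / 2)| < w i} := by
    refine (hE.trans hcov).trans (iUnion_mono fun i => strip_subset_open _ _ _ (hw i))
  obtain ⟨t, ht⟩ := NS_isCompact.elim_finite_subcover _ (fun i => isOpen_ostrip _ _ _) hcov2
  have h1 := finite_cover_bound t n (fun i => c i + w i / 2) w (fun i _ => hn i)
    (fun i _ => hw i) ht
  have h2 : ∑ i ∈ t, w i ≤ ∑' i, w i := hsum.sum_le_tsum t (fun i _ => (hw i).le)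
  linarith

end Pool.Agent.Lib.MP_6b55e5_an
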